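import Pool.Agent.Helper53.MR.Reduce

set_option autoImplicit false
set_option linter.unusedSectionVars false
open Filter Topology Set

namespace Pool.Agent.Helper53.MR

variable {X Y Δ Ω : Type} [TopologicalSpace X] [TopologicalSpace Y]

/-- Every decreasing sequence of closed sets with empty intersection expands to a sequence of open
sets with empty intersection (for normal spaces: countable paracompactness). -/
def CPar (Y : Type) [TopologicalSpace Y] : Prop :=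
  ∀ D : ℕ → Set Y, (∀ k, IsClosed (D k)) → Antitone D → (⋂ k, D k) = ∅ →
    ∃ O : ℕ → Set Y, (∀ k, IsOpen (O k)) ∧ (∀ k, D k ⊆ O k) ∧ (⋂ k, O k) = ∅

lemma CPar.image (h : CPar X) {f : X → Y} (hc : Continuous f) (hf : IsClosedMap f)
    (hs : Function.Surjective f) : CPar Y := by
  intro D hD hm hE
  obtain ⟨O, hO, hDO, hOE⟩ := h (fun k => f ⁻¹' D k) (fun k => (hD k).preimage hc)
    (fun i j hij => preimage_mono (hm hij)) (by rw [← preimage_iInter, hE, preimage_empty])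
  refine ⟨fun k => (f '' (O k)ᶜ)ᶜ, fun k => (hf _ (hO k).isClosed_compl).isOpen_compl, ?_, ?_⟩
  · rintro k y hy ⟨x, hx, rfl⟩
    exact hx (hDO k hy)
  · rw [Set.eq_empty_iff_forall_notMem]
    intro y hy
    obtain ⟨x, rfl⟩ := hs y
    have : x ∈ ⋂ k, O k := by
      rw [mem_iInter]
      intro k
      by_contra hx
      exact mem_iInter.1 hy k ⟨x, hx, rfl⟩
    rw [hOE] at this
    exact this

lemma CPar.shrink (h : CPar Y) {F : Set Y} (hF : IsClosed F) {V : ℕ → Set Y}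
    (hV : ∀ k, IsOpen (V k)) (hm : Monotone V) (hFV : F ⊆ ⋃ k, V k) :
    ∃ C : ℕ → Set Y, (∀ k, IsClosed (C k)) ∧ (∀ k, C k ⊆ V k) ∧ F ⊆ ⋃ k, C k := by
  obtain ⟨O, hO, hDO, hE⟩ := h (fun k => F \ V k) (fun k => hF.sdiff (hV k))
    (fun i j hij => sdiff_subset_sdiff_right (hm hij)) (by
      rw [Set.eq_empty_iff_forall_notMem]
      intro y hy
      rw [mem_iInter] at hy
      obtain ⟨k, hk⟩ := mem_iUnion.1 (hFV (hy 0).1)
      exact (hy k).2 hk)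
  refine ⟨fun k => F \ O k, fun k => hF.sdiff (hO k), fun k y hy => ?_, fun y hy => ?_⟩
  · by_contra hn
    exact hy.2 (hDO k ⟨hy.1, hn⟩)
  · by_contra hn
    have : y ∈ ⋂ k, O k := by
      rw [mem_iInter]
      intro k
      by_contra hk
      exact hn (mem_iUnion.2 ⟨k, hy, hk⟩)
    rw [hE] at this
    exact this

open Classical in
noncomputable def shr (F : Set Y) (V : ℕ → Set Y) : ℕ → Set Y :=
  if h : ∃ C : ℕ → Set Y, (∀ k, IsClosed (C k)) ∧ (∀ k, C k ⊆ V k) ∧ F ⊆ ⋃ k, C k then h.choose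
  else fun _ => ∅

lemma shr_closed (F : Set Y) (V : ℕ → Set Y) (k : ℕ) : IsClosed (shr F V k) := by
  unfold shr
  split_ifs with h
  · exact h.choose_spec.1 k
  · exact isClosed_empty

lemma shr_sub (F : Set Y) (V : ℕ → Set Y) (k : ℕ) : shr F V k ⊆ V k := by
  unfold shr
  split_ifs with h
  · exact h.choose_spec.2.1 k
  · exact empty_subset _

lemma shr_cover (hY : CPar Y) {F : Set Y} (hF : IsClosed F) {V : ℕ → Set Y}
    (hV : ∀ k, IsOpen (V k)) (hm : Monotone V) (hFV : F ⊆ ⋃ k, V k) :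
    F ⊆ ⋃ k, shr F V k := by
  have h := hY.shrink hF hV hm hFV
  unfold shr
  rw [dif_pos h]
  exact h.choose_spec.2.2

section order

variable [LinearOrder Ω]

def Xg (S : Setup X Y Δ) (ι : Δ → Ω) (γ : Ω) : Set X := {x | ∀ δ, S.b x δ = true → ι δ < γ}

def Yg (S : Setup X Y Δ) (ι : Δ → Ω) (γ : Ω) : Set Y := S.f '' Xg S ι γ

lemma isClosed_Xg (S : Setup X Y Δ) (ι : Δ → Ω) (γ : Ω) : IsClosed (Xg S ι γ) := by
  have : Xg S ι γ = S.b ⁻¹' (⋂ δ ∈ {δ | γ ≤ ι δ}, {z : Δ → Bool | z δ = false}) := by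
    ext x
    simp only [Xg, mem_ofPred_eq, mem_preimage, mem_iInter]
    constructor
    · intro h δ hδ
      by_contra hne
      exact absurd (h δ (by simpa using hne)) (not_lt.2 hδ)
    · intro h δ hδ
      by_contra hne
      have := h δ (not_lt.1 hne)
      rw [this] at hδ
      exact absurd hδ (by simp)
  rw [this]
  exact (isClosed_biInter fun δ _ => (isClopen_coord δ false).isClosed).preimage (S_contb S)

lemma isClosed_Yg (S : Setup X Y Δ) (ι : Δ → Ω) (γ : Ω) : IsClosed (Yg S ι γ) :=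
  S.closed _ (isClosed_Xg S ι γ)

lemma Yg_mono (S : Setup X Y Δ) (ι : Δ → Ω) {γ γ' : Ω} (h : γ ≤ γ') : Yg S ι γ ⊆ Yg S ι γ' :=
  image_mono fun _ hx δ hδ => (hx δ hδ).trans_le h

def VG (S : Setup X Y Δ) (ι : Δ → Ω) (e : Ω → Ω → ℕ) (γ : Ω) (k : ℕ) : Set Y :=
  {y | ∀ x, S.f x = y → ∃ δ, S.lev δ ≤ k ∧ S.b x δ = true ∧ γ ≤ ι δ ∧ e (ι δ) γ ≤ k}

lemma isOpen_VG (S : Setup X Y Δ) (ι : Δ → Ω) (e : Ω → Ω → ℕ) (γ : Ω) (k : ℕ) :
    IsOpen (VG S ι e γ k) := by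
  have h : IsOpen (⋃ δ ∈ {δ | S.lev δ ≤ k ∧ γ ≤ ι δ ∧ e (ι δ) γ ≤ k}, {x | S.b x δ = true}) := by
    refine isOpen_biUnion fun δ _ => ?_
    exact (isClopen_coord δ true).isOpen.preimage (S_contb S)
  have e1 : VG S ι e γ k = {y | ∀ x, S.f x = y → x ∈
      ⋃ δ ∈ {δ | S.lev δ ≤ k ∧ γ ≤ ι δ ∧ e (ι δ) γ ≤ k}, {x | S.b x δ = true}} := by
    ext y
    simp only [VG, mem_ofPred_eq, mem_iUnion, exists_prop]
    refine forall_congr' fun x => forall_congr' fun _ => exists_congr fun δ => ?_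
    tauto
  rw [e1]
  exact isOpen_dual S h

lemma VG_mono (S : Setup X Y Δ) (ι : Δ → Ω) (e : Ω → Ω → ℕ) (γ : Ω) :
    Monotone (VG S ι e γ) := by
  intro k k' hk y hy x hx
  obtain ⟨δ, h1, h2, h3, h4⟩ := hy x hx
  exact ⟨δ, h1.trans hk, h2, h3, h4.trans hk⟩

lemma VG_Yg (S : Setup X Y Δ) (ι : Δ → Ω) (e : Ω → Ω → ℕ) {γ : Ω} {k : ℕ} {y : Y}
    (h : y ∈ VG S ι e γ k) : y ∉ Yg S ι γ := by
  rintro ⟨x, hx, hxy⟩
  obtain ⟨δ, _, h2, h3, _⟩ := h x hxy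
  exact absurd (hx δ h2) (not_lt.2 h3)

lemma mem_VG (S : Setup X Y Δ) (ι : Δ → Ω) (e : Ω → Ω → ℕ) {γ : Ω} {y : Y}
    (h : y ∉ Yg S ι γ) : y ∈ ⋃ k, VG S ι e γ k := by
  obtain ⟨t, ht1, ht2⟩ := (S.cpt y).elim_finite_subcover_image (b := {δ | γ ≤ ι δ})
    (c := fun δ => {x | S.b x δ = true})
    (fun δ _ => (isClopen_coord δ true).isOpen.preimage (S_contb S)) (by
      intro x hx
      have : x ∉ Xg S ι γ := fun hx' => h ⟨x, hx', hx⟩
      simp only [Xg, mem_ofPred_eq, not_forall, not_lt] at this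
      obtain ⟨δ, h1, h2⟩ := this
      exact mem_biUnion h2 h1)
  obtain ⟨htf, htc⟩ := ht2
  obtain ⟨k, hk⟩ : ∃ k, ∀ δ ∈ t, S.lev δ ≤ k ∧ e (ι δ) γ ≤ k := by
    obtain ⟨k, hk⟩ := (htf.image fun δ => S.lev δ + e (ι δ) γ).bddAbove
    refine ⟨k, fun δ hδ => ?_⟩
    have : S.lev δ + e (ι δ) γ ≤ k := hk ⟨δ, hδ, rfl⟩
    constructor <;> omega
  refine mem_iUnion.2 ⟨k, fun x hx => ?_⟩
  obtain ⟨δ, hδ, hxδ⟩ := mem_iUnion₂.1 (htc (show x ∈ S.f ⁻¹' {y} from hx))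
  exact ⟨δ, (hk δ hδ).1, hxδ, ht1 hδ, (hk δ hδ).2⟩

lemma VG_finite (S : Setup X Y Δ) (ι : Δ → Ω) (e : Ω → Ω → ℕ)
    (he : ∀ η, InjOn (e η) (Iic η)) (y : Y) (k : ℕ) : {γ | y ∈ VG S ι e γ k}.Finite := by
  obtain ⟨x, hx⟩ := S.surj y
  have h1 : (⋃ δ ∈ {δ | S.lev δ ≤ k ∧ S.b x δ = true}, {γ | γ ≤ ι δ ∧ e (ι δ) γ ≤ k}).Finite := by
    refine (S.fin x k).biUnion fun δ _ => ?_
    refine Set.Finite.of_finite_image (f := e (ι δ)) ?_ ?_
    · exact (finite_Iic k).subset (by rintro _ ⟨γ, hγ, rfl⟩; exact hγ.2)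
    · exact (he (ι δ)).mono fun γ hγ => hγ.1
  refine h1.subset fun γ hγ => ?_
  obtain ⟨δ, a, b, c, d⟩ := hγ x hx
  exact mem_biUnion (x := δ) ⟨a, b⟩ ⟨c, d⟩

def JJ (ι : Δ → Ω) (γ : Ω) (p : ℕ × Finset Δ × Ω) : Prop :=
  (∀ δ ∈ p.2.1, ι δ ≤ γ) ∧ p.2.2 ≤ γ

def Fd (S : Setup X Y Δ) (γ : Ω) (R : ∀ β, β < γ → Set Y) (p : ℕ × Finset Δ × Ω) : Set Y :=
  EE S p.1 p.2.1 \ ⋃ (β : Ω) (h : β < γ) (_ : p.2.2 ≤ β), R β h

def BB [NormalSpace Y] (S : Setup X Y Δ) (ι : Δ → Ω) (e : Ω → Ω → ℕ) (γ : Ω)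
    (R : ∀ β, β < γ → Set Y) (p : ℕ × Finset Δ × Ω) (k : ℕ) : Set Y :=
  {y | bump (shr (Fd S γ R p) (VG S ι e γ) k) (VG S ι e γ k) y ≠ 0}

variable [WellFoundedLT Ω]

noncomputable def RR [NormalSpace Y] (S : Setup X Y Δ) (ι : Δ → Ω) (e : Ω → Ω → ℕ) : Ω → Set Y :=
  WellFounded.fix (wellFounded_lt (α := Ω)) fun γ R =>
    ⋃ (p : ℕ × Finset Δ × Ω) (_ : JJ ι γ p) (k : ℕ), BB S ι e γ R p k

lemma RR_eq [NormalSpace Y] (S : Setup X Y Δ) (ι : Δ → Ω) (e : Ω → Ω → ℕ) (γ : Ω) :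
    RR S ι e γ = ⋃ (p : ℕ × Finset Δ × Ω) (_ : JJ ι γ p) (k : ℕ),
      BB S ι e γ (fun β _ => RR S ι e β) p k := by
  unfold RR
  rw [WellFounded.fix_eq]

noncomputable def hR [NormalSpace Y] (S : Setup X Y Δ) (ι : Δ → Ω) (e : Ω → Ω → ℕ) (γ : Ω)
    (p : ℕ × Finset Δ × Ω) (k : ℕ) : Y → ℝ :=
  bump (shr (Fd S γ (fun β _ => RR S ι e β) p) (VG S ι e γ) k) (VG S ι e γ k)

lemma mem_RR [NormalSpace Y] (S : Setup X Y Δ) (ι : Δ → Ω) (e : Ω → Ω → ℕ) (γ : Ω) (y : Y) :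
    y ∈ RR S ι e γ ↔ ∃ p, JJ ι γ p ∧ ∃ k, hR S ι e γ p k y ≠ 0 := by
  rw [RR_eq]
  simp only [mem_iUnion, exists_prop]
  rfl

lemma isOpen_RR [NormalSpace Y] (S : Setup X Y Δ) (ι : Δ → Ω) (e : Ω → Ω → ℕ) (γ : Ω) :
    IsOpen (RR S ι e γ) := by
  have : RR S ι e γ = ⋃ (p : ℕ × Finset Δ × Ω) (_ : JJ ι γ p) (k : ℕ),
      {y | hR S ι e γ p k y ≠ 0} := by
    ext y
    rw [mem_RR]
    simp only [mem_iUnion, exists_prop]
    rfl
  rw [this]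
  refine isOpen_iUnion fun p => isOpen_iUnion fun _ => isOpen_iUnion fun k => ?_
  exact isOpen_ne_fun (bump_cont _ _) continuous_const

lemma RR_Yg [NormalSpace Y] (S : Setup X Y Δ) (ι : Δ → Ω) (e : Ω → Ω → ℕ) {γ : Ω} {y : Y}
    (h : y ∈ RR S ι e γ) : y ∉ Yg S ι γ := by
  rw [mem_RR] at h
  obtain ⟨p, _, k, hk⟩ := h
  exact VG_Yg S ι e (bump_ne _ _ hk)

lemma isClosed_Fd (S : Setup X Y Δ) (γ : Ω) {R : ∀ β, β < γ → Set Y}
    (hR : ∀ β h, IsOpen (R β h)) (p : ℕ × Finset Δ × Ω) : IsClosed (Fd S γ R p) := by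
  refine (isClosed_EE S _ _).sdiff ?_
  exact isOpen_iUnion fun β => isOpen_iUnion fun h => isOpen_iUnion fun _ => hR β h

/-- a closed set of the recursion missing `Yg γ` is covered by `RR γ`. -/
lemma sub_RR [NormalSpace Y] (hY : CPar Y) (S : Setup X Y Δ) (ι : Δ → Ω) (e : Ω → Ω → ℕ) {γ : Ω}
    {p : ℕ × Finset Δ × Ω} (hp : JJ ι γ p)
    (hdis : ∀ y ∈ Fd S γ (fun β _ => RR S ι e β) p, y ∉ Yg S ι γ) :
    Fd S γ (fun β _ => RR S ι e β) p ⊆ RR S ι e γ := by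
  intro y hy
  have hcl : IsClosed (Fd S γ (fun β _ => RR S ι e β) p) :=
    isClosed_Fd S γ (fun β _ => isOpen_RR S ι e β) p
  have hcov := shr_cover hY hcl (fun k => isOpen_VG S ι e γ k) (VG_mono S ι e γ)
    (fun y' hy' => mem_VG S ι e (hdis y' hy'))
  obtain ⟨k, hk⟩ := mem_iUnion.1 (hcov hy)
  rw [mem_RR]
  refine ⟨p, hp, k, ?_⟩
  unfold hR
  rw [bump_one (shr_closed _ _ _) (isOpen_VG S ι e γ k) (shr_sub _ _ _) hk]
  exact one_ne_zero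

/-- minimality argument -/
lemma exists_minx (S : Setup X Y Δ) (ι : Δ → Ω) (B : Set Y) (hB : B.Nonempty) :
    ∃ x, S.f x ∈ B ∧ ∀ δ, S.b x δ = true → ∀ y ∈ B, y ∉ Yg S ι (ι δ) := by
  by_cases h : ∃ α, (B ∩ Yg S ι α).Nonempty
  · have hwf := (wellFounded_lt (α := Ω))
    obtain ⟨y, hyB, x, hx, hxy⟩ := hwf.min_mem {α | (B ∩ Yg S ι α).Nonempty} h
    refine ⟨x, by rwa [hxy], fun δ hδ y' hy' hY => ?_⟩
    exact hwf.not_lt_min {α | (B ∩ Yg S ι α).Nonempty} (x := ι δ) ⟨y', hy', hY⟩ (hx δ hδ)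
  · obtain ⟨y, hy⟩ := hB
    obtain ⟨x, rfl⟩ := S.surj y
    exact ⟨x, hy, fun δ _ y' hy' hY => h ⟨ι δ, y', hy', hY⟩⟩

/-- the key covering claim -/
lemma claim [NormalSpace Y] (hY : CPar Y) (S : Setup X Y Δ) (ι : Δ → Ω) (e : Ω → Ω → ℕ) (β0 : Ω)
    (y : Y) (hy : y ∉ Yg S ι β0) : ∃ β, β0 ≤ β ∧ y ∈ RR S ι e β := by
  by_contra hcon
  push Not at hcon
  set B : Set Y := {y | y ∉ Yg S ι β0 ∧ ∀ β, β0 ≤ β → y ∉ RR S ι e β} with hB
  obtain ⟨x, hxB, hx⟩ := exists_minx S ι B ⟨y, hy, hcon⟩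
  obtain ⟨n, hn⟩ := EE_conv S ((isClosed_Yg S ι β0).isOpen_compl.mem_nhds hxB.1)
  have hn' := hn n le_rfl x rfl
  set s := trunc S n x with hs
  -- the ordinal `γ`
  obtain ⟨γ, hγ0, hγs, hγ⟩ : ∃ γ, β0 ≤ γ ∧ (∀ δ ∈ s, ι δ ≤ γ) ∧ ∀ y ∈ B, y ∉ Yg S ι γ := by
    classical
    obtain ⟨γ, hγ, hmax⟩ := (insert β0 (s.image ι)).exists_max_image id (Finset.insert_nonempty _ _)
    refine ⟨γ, hmax β0 (Finset.mem_insert_self _ _), fun δ hδ => hmax (ι δ)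
      (Finset.mem_insert_of_mem (Finset.mem_image_of_mem _ hδ)), ?_⟩
    rcases Finset.mem_insert.1 hγ with rfl | h
    · exact fun y hy => hy.1
    · obtain ⟨δ, hδ, rfl⟩ := Finset.mem_image.1 h
      exact hx δ ((mem_trunc S n x δ).1 hδ).2
  have hsub := sub_RR hY S ι e (γ := γ) (p := (n, s, β0)) ⟨hγs, hγ0⟩ (by
    rintro y' ⟨⟨w, hw, rfl⟩, hy'2⟩ hy'
    have h1 : S.f w ∉ Yg S ι β0 := hn' w hw
    have h2 : S.f w ∉ B := fun h => hγ _ h hy'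
    have h3 : ∃ β, β0 ≤ β ∧ S.f w ∈ RR S ι e β := by
      by_contra h4
      push Not at h4
      exact h2 ⟨h1, h4⟩
    obtain ⟨β, hβ0, hβ⟩ := h3
    have h5 : γ ≤ β := by
      by_contra h6
      apply hy'2
      simp only [mem_iUnion]
      exact ⟨β, not_le.1 h6, hβ0, hβ⟩
    exact RR_Yg S ι e hβ (Yg_mono S ι h5 hy'))
  refine hxB.2 γ hγ0 (hsub ⟨⟨x, rfl, rfl⟩, ?_⟩)
  simp only [mem_iUnion, not_exists]
  intro β _ hβ0 hβ
  exact hxB.2 β hβ0 hβ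

/-! ### labels -/

lemma countable_Q {ι : Δ → Ω} (hι : Function.Injective ι) (hΩ : ∀ β : Ω, (Iic β).Countable)
    (γ : Ω) : {s : Finset Δ | ∀ δ ∈ s, ι δ ≤ γ}.Countable := by
  have hT : {δ | ι δ ≤ γ}.Countable := (hΩ γ).preimage hι
  refine ((Set.countable_ofPred_finite_subset hT).preimage Finset.coe_injective).mono ?_
  intro s hs
  exact ⟨s.finite_toSet, fun δ hδ => hs δ hδ⟩

lemma countable_J {ι : Δ → Ω} (hι : Function.Injective ι) (hΩ : ∀ β : Ω, (Iic β).Countable)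
    (γ : Ω) : {p : ℕ × Finset Δ × Ω | JJ ι γ p}.Countable := by
  have h := (countable_univ (α := ℕ)).prod ((countable_Q hι hΩ γ).prod (hΩ γ))
  refine h.mono ?_
  rintro ⟨n, s, β⟩ ⟨h1, h2⟩
  exact ⟨mem_univ _, h1, h2⟩

abbrev LA (Δ Ω : Type) := (Ω × (ℕ × Finset Δ × Ω) × ℕ × (ℕ × Finset Δ)) ⊕ ℕ

open Classical in
noncomputable def labO [NormalSpace Y] (S : Setup X Y Δ) (ι : Δ → Ω) (e : Ω → Ω → ℕ)
    (he : ∀ η, InjOn (e η) (Iic η))
    (eP : Ω → ℕ × Finset Δ × Ω → ℕ) (hP : ∀ γ, InjOn (eP γ) {p | JJ ι γ p})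
    (eQ : Ω → Finset Δ → ℕ) (hQ : ∀ γ, InjOn (eQ γ) {s | ∀ δ ∈ s, ι δ ≤ γ}) :
    Lab Y (LA Δ Ω) where
  F := Sum.elim (fun a => EE S a.2.2.2.1 a.2.2.2.2) (fun n => EE S n ∅)
  Fc := by
    rintro (a | n)
    · exact isClosed_EE S _ _
    · exact isClosed_EE S _ _
  h := Sum.elim (fun a => if JJ ι a.1 a.2.1 ∧ ∀ δ ∈ a.2.2.2.2, ι δ ≤ a.1 then
    hR S ι e a.1 a.2.1 a.2.2.1 else fun _ => 0) (fun _ _ => 1)
  hc := by
    rintro (a | n)
    · simp only [Sum.elim_inl]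
      split_ifs
      · exact bump_cont _ _
      · exact continuous_const
    · exact continuous_const
  h0 := by
    rintro (a | n) y
    · simp only [Sum.elim_inl]
      split_ifs
      · exact bump_nonneg _ _ _
      · exact le_rfl
    · simp
  h1 := by
    rintro (a | n) y
    · simp only [Sum.elim_inl]
      split_ifs
      · exact bump_le _ _ _
      · exact zero_le_one
    · simp
  c := Sum.elim (fun a => 2 * Nat.pair (eP a.1 a.2.1) (Nat.pair a.2.2.1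
    (Nat.pair a.2.2.2.1 (eQ a.1 a.2.2.2.2)))) (fun n => 2 * n + 1)
  cf := by
    intro y k
    have h1 : {l : LA Δ Ω | Sum.elim (fun a : Ω × (ℕ × Finset Δ × Ω) × ℕ × (ℕ × Finset Δ) =>
        2 * Nat.pair (eP a.1 a.2.1) (Nat.pair a.2.2.1 (Nat.pair a.2.2.2.1 (eQ a.1 a.2.2.2.2))))
        (fun n => 2 * n + 1) l = k ∧ Sum.elim (fun a => if JJ ι a.1 a.2.1 ∧
          ∀ δ ∈ a.2.2.2.2, ι δ ≤ a.1 then hR S ι e a.1 a.2.1 a.2.2.1 else fun _ => 0)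
          (fun _ _ => 1) l y ≠ 0} ⊆
        Sum.inl '' {a : Ω × (ℕ × Finset Δ × Ω) × ℕ × (ℕ × Finset Δ) |
          2 * Nat.pair (eP a.1 a.2.1) (Nat.pair a.2.2.1 (Nat.pair a.2.2.2.1 (eQ a.1 a.2.2.2.2))) = k
          ∧ JJ ι a.1 a.2.1 ∧ (∀ δ ∈ a.2.2.2.2, ι δ ≤ a.1) ∧ hR S ι e a.1 a.2.1 a.2.2.1 y ≠ 0} ∪
        Sum.inr '' {n | 2 * n + 1 = k} := by
      rintro (a | n) ⟨ha, hb⟩
      · left
        refine ⟨a, ⟨ha, ?_⟩, rfl⟩
        simp only [Sum.elim_inl] at hb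
        split_ifs at hb with h
        · exact ⟨h.1, h.2, hb⟩
        · exact absurd rfl hb
      · right
        exact ⟨n, ha, rfl⟩
    refine Set.Finite.subset (Set.Finite.union (Set.Finite.image _ ?_)
      (Set.Finite.image _ ?_)) h1
    · refine Set.Finite.of_finite_image (f := Prod.fst) ?_ ?_
      · refine (VG_finite S ι e he y (Nat.unpair (Nat.unpair (k / 2)).2).1).subset ?_
        rintro _ ⟨a, ⟨ha, hb, hc, hd⟩, rfl⟩
        have h2 := bump_ne _ _ hd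
        have h3 : (Nat.unpair (Nat.unpair (k / 2)).2).1 = a.2.2.1 := by
          rw [← ha]; simp
        change y ∈ VG S ι e a.1 _
        rw [h3]
        exact h2
      · rintro ⟨γ, p, i, n, s⟩ ⟨ha, hb, hc, hd⟩ ⟨γ', p', i', n', s'⟩ ⟨ha', hb', hc', hd'⟩ heq
        simp only at heq ha ha' hb hb' hc hc'
        subst heq
        rw [← ha'] at ha
        have h2 := Nat.eq_of_mul_eq_mul_left (by norm_num) ha
        rw [Nat.pair_eq_pair, Nat.pair_eq_pair, Nat.pair_eq_pair] at h2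
        obtain ⟨h3, h4, h5, h6⟩ := h2
        have h7 := hP γ hb hb' h3
        have h8 := hQ γ hc hc' h6
        subst h7 h8 h4 h5
        rfl
    · refine (finite_Iic k).subset ?_
      intro n hn
      have : 2 * n + 1 = k := hn
      change n ≤ k
      omega

theorem main_ordinal [NormalSpace Y] (hY : CPar Y) (S : Setup X Y Δ) {ι : Δ → Ω}
    (hι : Function.Injective ι) (hΩ : ∀ β : Ω, (Iic β).Countable) :
    ∃ (Γ' : Type) (g : Y → (Γ' → ℝ)), Continuous g ∧ (∀ y, Tendsto (g y) cofinite (𝓝 0)) ∧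
      ∀ y, 𝓝 y = comap g (𝓝 (g y)) := by
  classical
  choose e he using fun η => Set.countable_iff_exists_injOn.1 (hΩ η)
  choose eP hP using fun γ => Set.countable_iff_exists_injOn.1 (countable_J hι hΩ γ)
  choose eQ hQ using fun γ => Set.countable_iff_exists_injOn.1 (countable_Q hι hΩ γ)
  obtain ⟨Γ', g, h1, h2, h3⟩ := main S (labO S ι e he eP hP eQ hQ)
  refine ⟨Γ', g, h1, h2, fun y => h3 y fun O hO => ?_⟩
  obtain ⟨x, hxy, hx⟩ := exists_minx S ι {y} ⟨y, rfl⟩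
  have hxy' : S.f x = y := hxy
  obtain ⟨n, hn⟩ := EE_conv S hO
  have hn' := hn n le_rfl x hxy'
  have hsub : EE S n (trunc S n x) ⊆ O := by
    rintro _ ⟨w, hw, rfl⟩
    exact hn' w hw
  have hmem : y ∈ EE S n (trunc S n x) := ⟨x, rfl, hxy'⟩
  rcases (trunc S n x).eq_empty_or_nonempty with hs | hs
  · refine ⟨Sum.inr n, ?_, ?_, ?_⟩
    · change y ∈ EE S n ∅
      rw [← hs]; exact hmem
    · change EE S n ∅ ⊆ O
      rw [← hs]; exact hsub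
    · exact one_ne_zero
  · obtain ⟨δ0, hδ0, hmax⟩ := (trunc S n x).exists_max_image ι hs
    have hy0 : y ∉ Yg S ι (ι δ0) := hx δ0 ((mem_trunc S n x δ0).1 hδ0).2 y rfl
    obtain ⟨β, hβ0, hβ⟩ := claim hY S ι e (ι δ0) y hy0
    obtain ⟨p, hp, k, hk⟩ := (mem_RR S ι e β y).1 hβ
    refine ⟨Sum.inl (β, p, k, n, trunc S n x), hmem, hsub, ?_⟩
    have hc : JJ ι β p ∧ ∀ δ ∈ trunc S n x, ι δ ≤ β := ⟨hp, fun δ hδ => (hmax δ hδ).trans hβ0⟩
    change (if JJ ι β p ∧ ∀ δ ∈ trunc S n x, ι δ ≤ β then hR S ι e β p k else fun _ => 0) y ≠ 0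
    rw [if_pos hc]
    exact hk

end order

theorem exists_Om : ∃ (Ω : Type) (_ : LinearOrder Ω) (_ : WellFoundedLT Ω),
    (∀ β : Ω, (Set.Iic β).Countable) ∧ Cardinal.mk Ω = Cardinal.aleph 1 := by
  refine ⟨(Cardinal.aleph 1).ord.ToType, inferInstance, inferInstance, ?_, ?_⟩
  · intro β
    have h1 : Cardinal.mk (Set.Iio β) < Cardinal.aleph 1 := Cardinal.mk_Iio_toType_ord_lt β
    have h2 : (Set.Iio β).Countable := by
      rw [← Cardinal.le_aleph0_iff_set_countable]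
      have h1' : Cardinal.mk (Set.Iio β) < Order.succ Cardinal.aleph0 := by
        rw [Cardinal.succ_aleph0]; exact h1
      exact Order.lt_succ_iff.1 h1'
    have : Set.Iic β = insert β (Set.Iio β) := by
      ext x; simp [le_iff_eq_or_lt]
    rw [this]
    exact h2.insert β
  · exact Cardinal.mk_ord_toType _

theorem aleph_one {X Y Γ : Type} [TopologicalSpace X] [TopologicalSpace Y] [NormalSpace X]
    (hX : CPar X) (hΓ : Cardinal.mk Γ ≤ Cardinal.aleph 1)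
    (e : X → (Γ → ℝ)) (he : IsEmbedding e) (h0 : ∀ x, Tendsto (e x) cofinite (𝓝 0))
    (f : X → Y) (hf : IsProperMap f) (hs : Function.Surjective f) :
    ∃ (Γ' : Type) (g : Y → (Γ' → ℝ)), IsEmbedding g ∧ ∀ y, Tendsto (g y) cofinite (𝓝 0) := by
  have : T2Space X := he.t2Space
  have : NormalSpace Y := normal_of_closed hf.continuous hf.isClosedMap hs
  have : T1Space Y := t1_of_closed hf.isClosedMap hs
  obtain ⟨Ω, _, _, hΩ, hcard⟩ := exists_Om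
  have hle : Cardinal.mk (Γ × ℚ) ≤ Cardinal.mk Ω := by
    rw [hcard, Cardinal.mk_prod, Cardinal.lift_id, Cardinal.lift_id, Cardinal.mkRat]
    refine (mul_le_mul' hΓ (Cardinal.aleph0_le_aleph 1)).trans ?_
    exact (Cardinal.mul_eq_self (Cardinal.aleph0_le_aleph 1)).le
  obtain ⟨ι⟩ := hle
  obtain ⟨Γ', g, h1, h2, h3⟩ := main_ordinal (hX.image hf.continuous hf.isClosedMap hs)
    (mkSetup e he.isInducing h0 f hf hs) ι.injective hΩ
  refine ⟨Γ', g, ?_, h2⟩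
  have : IsInducing g := isInducing_iff_nhds.2 h3
  exact this.isEmbedding

end Pool.Agent.Helper53.MR
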