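import Mathlib

set_option autoImplicit false
open Filter Topology Set

namespace Pool.Agent.Helper53.MR

/-- A perfect map `f : X → Y` where `X` is (up to homeomorphism) a space of functions `Δ → Bool`
with finitely many `true` values below each level. -/
structure Setup (X Y Δ : Type) [TopologicalSpace X] [TopologicalSpace Y] where
  b : X → (Δ → Bool)
  lev : Δ → ℕ
  f : X → Y
  ind : IsInducing b
  fin : ∀ x n, {δ | lev δ ≤ n ∧ b x δ = true}.Finite
  cont : Continuous f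
  closed : IsClosedMap f
  cpt : ∀ y, IsCompact (f ⁻¹' {y})
  surj : Function.Surjective f

/-- A family of closed sets `F l` with a family of functions `h l`, whose cozero sets are
point-finite on each colour class. -/
structure Lab (Y Λ : Type) [TopologicalSpace Y] where
  F : Λ → Set Y
  Fc : ∀ l, IsClosed (F l)
  h : Λ → Y → ℝ
  hc : ∀ l, Continuous (h l)
  h0 : ∀ l y, 0 ≤ h l y
  h1 : ∀ l y, h l y ≤ 1
  c : Λ → ℕ
  cf : ∀ y k, {l | c l = k ∧ h l y ≠ 0}.Finite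

variable {X Y Δ Λ : Type} [TopologicalSpace X] [TopologicalSpace Y]

/-- basic clopen sets -/
def Box (t A : Finset Δ) : Set (Δ → Bool) :=
  {z | (∀ δ ∈ t, z δ = true) ∧ ∀ δ ∈ A, z δ = false}

lemma isClopen_coord (δ : Δ) (v : Bool) : IsClopen {z : Δ → Bool | z δ = v} := by
  have : IsClopen ((fun z : Δ → Bool => z δ) ⁻¹' {v}) :=
    (isClopen_discrete {v}).preimage (continuous_apply δ)
  exact this

lemma isClopen_Box (t A : Finset Δ) : IsClopen (Box t A) := by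
  have h1 : IsClopen (⋂ δ ∈ t, {z : Δ → Bool | z δ = true}) :=
    isClopen_biInter_finset fun δ _ => isClopen_coord δ true
  have h2 : IsClopen (⋂ δ ∈ A, {z : Δ → Bool | z δ = false}) :=
    isClopen_biInter_finset fun δ _ => isClopen_coord δ false
  have : Box t A = (⋂ δ ∈ t, {z : Δ → Bool | z δ = true}) ∩
      (⋂ δ ∈ A, {z : Δ → Bool | z δ = false}) := by
    ext z; simp [Box]
  rw [this]; exact h1.inter h2

abbrev Cell (Δ Λ : Type) := List Λ × ℕ × Finset Δ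

def Fs (L : Lab Y Λ) (s : List Λ) : Set Y := {y | ∀ l ∈ s, y ∈ L.F l}

lemma isClosed_Fs (L : Lab Y Λ) (s : List Λ) : IsClosed (Fs L s) := by
  have : Fs L s = ⋂ l ∈ s, L.F l := by ext y; simp [Fs]
  rw [this]
  exact isClosed_biInter fun l _ => L.Fc l

def Good (S : Setup X Y Δ) (L : Lab Y Λ) (τ : Cell Δ Λ) (A : Finset Δ) : Prop :=
  (∀ δ ∈ A, S.lev δ ≤ τ.2.1) ∧ (∀ δ ∈ A, δ ∉ τ.2.2) ∧
    ∀ x, S.b x ∈ Box τ.2.2 A → S.f x ∉ Fs L τ.1

open Classical in
noncomputable def Nb (S : Setup X Y Δ) (L : Lab Y Λ) (τ : Cell Δ Λ) : Set (Δ → Bool) :=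
  if (∀ δ ∈ τ.2.2, S.lev δ ≤ τ.2.1) then
    (if Good S L τ ∅ then Box τ.2.2 ∅ else
      if h : ∃ A, Good S L τ A then Box τ.2.2 h.choose else ∅)
  else ∅

lemma isClopen_Nb (S : Setup X Y Δ) (L : Lab Y Λ) (τ : Cell Δ Λ) : IsClopen (Nb S L τ) := by
  unfold Nb
  split_ifs
  · exact isClopen_Box _ _
  · exact isClopen_Box _ _
  · exact isClopen_empty
  · exact isClopen_empty

lemma Nb_sub (S : Setup X Y Δ) (L : Lab Y Λ) (τ : Cell Δ Λ) {z : Δ → Bool} (hz : z ∈ Nb S L τ) :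
    ∀ δ ∈ τ.2.2, S.lev δ ≤ τ.2.1 ∧ z δ = true := by
  unfold Nb at hz
  split_ifs at hz with h1 h2 h3
  · exact fun δ hδ => ⟨h1 δ hδ, hz.1 δ hδ⟩
  · exact fun δ hδ => ⟨h1 δ hδ, hz.1 δ hδ⟩
  · exact absurd hz (by simp)
  · exact absurd hz (by simp)

lemma Nb_Fs (S : Setup X Y Δ) (L : Lab Y Λ) (τ : Cell Δ Λ) {x : X} (hz : S.b x ∈ Nb S L τ) :
    S.f x ∉ Fs L τ.1 := by
  unfold Nb at hz
  split_ifs at hz with h1 h2 h3
  · exact h2.2.2 x hz
  · exact h3.choose_spec.2.2 x hz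
  · exact absurd hz (by simp)
  · exact absurd hz (by simp)

lemma mem_Nb_of_empty (S : Setup X Y Δ) (L : Lab Y Λ) (τ : Cell Δ Λ)
    (h1 : ∀ δ ∈ τ.2.2, S.lev δ ≤ τ.2.1) (h2 : Good S L τ ∅) {z : Δ → Bool}
    (hz : ∀ δ ∈ τ.2.2, z δ = true) : z ∈ Nb S L τ := by
  unfold Nb
  rw [if_pos h1, if_pos h2]
  exact ⟨hz, by simp⟩

lemma mem_Nb_of_full (S : Setup X Y Δ) (L : Lab Y Λ) (τ : Cell Δ Λ)
    {z : Δ → Bool} (h1 : ∀ δ, δ ∈ τ.2.2 ↔ S.lev δ ≤ τ.2.1 ∧ z δ = true)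
    (h2 : ∃ A, Good S L τ A) : z ∈ Nb S L τ := by
  unfold Nb
  rw [if_pos fun δ hδ => ((h1 δ).1 hδ).1]
  split_ifs with h3
  · exact ⟨fun δ hδ => ((h1 δ).1 hδ).2, by simp⟩
  · refine ⟨fun δ hδ => ((h1 δ).1 hδ).2, fun δ hδ => ?_⟩
    have ha := h2.choose_spec.1 δ hδ
    have hb := h2.choose_spec.2.1 δ hδ
    by_contra hz
    exact hb ((h1 δ).2 ⟨ha, by simpa using hz⟩)

/-- the part of `z` below level `m` -/
noncomputable def trunc (S : Setup X Y Δ) (m : ℕ) (x : X) : Finset Δ := (S.fin x m).toFinset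

lemma mem_trunc (S : Setup X Y Δ) (m : ℕ) (x : X) (δ : Δ) :
    δ ∈ trunc S m x ↔ S.lev δ ≤ m ∧ S.b x δ = true := by
  simp [trunc]

lemma S_contb (S : Setup X Y Δ) : Continuous S.b := S.ind.continuous

/-- a fixed branch -/
def brn (l : ℕ → Λ) (n : ℕ) : List Λ := (List.range n).map l

lemma brn_prefix (l : ℕ → Λ) {m n : ℕ} (h : m ≤ n) : brn l m <+: brn l n := by
  obtain ⟨k, rfl⟩ := Nat.exists_eq_add_of_le h
  unfold brn
  rw [List.range_add, List.map_append]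
  exact List.prefix_append _ _

lemma mem_brn (l : ℕ → Λ) {n : ℕ} {a : Λ} : a ∈ brn l n ↔ ∃ i < n, l i = a := by
  simp [brn]

/-- `l` is a branch at `y`. -/
structure IsBr (L : Lab Y Λ) (y : Y) (l : ℕ → Λ) : Prop where
  mem : ∀ i, y ∈ L.F (l i)
  pos : ∀ i, L.h (l i) y ≠ 0
  conv : ∀ O ∈ 𝓝 y, ∃ i, L.F (l i) ⊆ O

lemma IsBr.mem_Fs {L : Lab Y Λ} {y : Y} {l : ℕ → Λ} (h : IsBr L y l) (n : ℕ) :
    y ∈ Fs L (brn l n) := by
  intro a ha
  obtain ⟨i, _, rfl⟩ := (mem_brn l).1 ha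
  exact h.mem i

lemma IsBr.conv' {L : Lab Y Λ} {y : Y} {l : ℕ → Λ} (h : IsBr L y l) {C : Set Y} (hC : IsClosed C)
    (hy : y ∉ C) : ∃ n, ∀ y' ∈ C, y' ∉ Fs L (brn l n) := by
  obtain ⟨i, hi⟩ := h.conv Cᶜ (hC.isOpen_compl.mem_nhds hy)
  refine ⟨i + 1, fun y' hy' hF => ?_⟩
  exact hi (hF (l i) ((mem_brn l).2 ⟨i, Nat.lt_succ_self i, rfl⟩)) hy'

/-- The covering claim for a point. -/
lemma cover_point (S : Setup X Y Δ) (L : Lab Y Λ) {y : Y} {l : ℕ → Λ}
    (h : IsBr L y l) {z : Δ → Bool} (hz : z ∉ S.b '' (S.f ⁻¹' {y})) :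
    ∃ τ : Cell Δ Λ, (∃ n, τ.1 = brn l n) ∧ z ∈ Nb S L τ := by
  classical
  have hK : IsCompact (S.b '' (S.f ⁻¹' {y})) := (S.cpt y).image (S_contb S)
  -- a finite set of coordinates separating z
  obtain ⟨D, hD⟩ : ∃ D : Finset Δ, ∀ w ∈ S.b '' (S.f ⁻¹' {y}), ∃ δ ∈ D, w δ ≠ z δ := by
    have hopen : IsOpen (S.b '' (S.f ⁻¹' {y}))ᶜ := hK.isClosed.isOpen_compl
    obtain ⟨D, u, hu, hsub⟩ := isOpen_pi_iff.1 hopen z hz
    refine ⟨D, fun w hw => ?_⟩
    by_contra hcon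
    push Not at hcon
    refine hsub (a := w) ?_ hw
    intro δ hδ
    rw [hcon δ hδ]
    exact (hu δ hδ).2
  set m := D.sup S.lev with hm
  have hDm : ∀ δ ∈ D, S.lev δ ≤ m := fun δ hδ => Finset.le_sup hδ
  -- sets of coordinates
  set T : Set Δ := {δ | S.lev δ ≤ m ∧ z δ = true} with hT
  by_cases hcase : ∃ t : Finset Δ, (t : Set Δ) ⊆ T ∧ ∀ w ∈ S.b '' (S.f ⁻¹' {y}), ∃ δ ∈ t, w δ = false
  · obtain ⟨t, htT, ht⟩ := hcase
    have hcl : IsClosed (S.f '' (S.b ⁻¹' Box t ∅)) :=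
      S.closed _ ((isClopen_Box t ∅).isClosed.preimage (S_contb S))
    have hy : y ∉ S.f '' (S.b ⁻¹' Box t ∅) := by
      rintro ⟨x, hx, hxy⟩
      obtain ⟨δ, hδ, hδ'⟩ := ht (S.b x) ⟨x, hxy, rfl⟩
      have := hx.1 δ hδ
      simp [hδ'] at this
    obtain ⟨n, hn⟩ := h.conv' hcl hy
    refine ⟨(brn l n, m, t), ⟨n, rfl⟩, ?_⟩
    refine mem_Nb_of_empty S L _ (fun δ hδ => (htT hδ).1) ⟨by simp, by simp, ?_⟩
      (fun δ hδ => (htT hδ).2)
    intro x hx
    exact hn _ ⟨x, hx, rfl⟩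
  · push Not at hcase
    -- T is finite
    have hTfin : T.Finite := by
      have := IsCompact.inter_iInter_nonempty hK (fun δ : T => {w : Δ → Bool | w δ = true})
        (fun δ => (isClopen_coord δ.1 true).isClosed) (by
          intro u
          obtain ⟨w, hw, hw'⟩ := hcase (u.image Subtype.val) (by
            intro δ hδ
            simp only [Finset.coe_image, mem_image, Finset.mem_coe] at hδ
            obtain ⟨a, _, rfl⟩ := hδ
            exact a.2)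
          refine ⟨w, hw, ?_⟩
          simp only [mem_iInter, mem_ofPred_eq]
          intro δ hδ
          have := hw' δ.1 (Finset.mem_image_of_mem _ hδ)
          simpa using this)
      obtain ⟨w, ⟨x, hx, rfl⟩, hw'⟩ := this
      simp only [mem_iInter, mem_ofPred_eq] at hw'
      refine (S.fin x m).subset fun δ hδ => ⟨hδ.1, hw' ⟨δ, hδ⟩⟩
    set t := hTfin.toFinset with ht
    have hmt : ∀ δ, δ ∈ t ↔ S.lev δ ≤ m ∧ z δ = true := by
      intro δ; simp [ht, hT]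
    set A := D.filter (fun δ => z δ = false) with hA
    have hcl : IsClosed (S.f '' (S.b ⁻¹' Box t A)) :=
      S.closed _ ((isClopen_Box t A).isClosed.preimage (S_contb S))
    have hy : y ∉ S.f '' (S.b ⁻¹' Box t A) := by
      rintro ⟨x, hx, hxy⟩
      obtain ⟨δ, hδ, hδ'⟩ := hD (S.b x) ⟨x, hxy, rfl⟩
      apply hδ'
      cases hzd : z δ
      · exact hx.2 δ (by simp [hA, hδ, hzd])
      · exact hx.1 δ ((hmt δ).2 ⟨hDm δ hδ, hzd⟩)
    obtain ⟨n, hn⟩ := h.conv' hcl hy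
    refine ⟨(brn l n, m, t), ⟨n, rfl⟩, ?_⟩
    refine mem_Nb_of_full S L _ hmt ⟨A, ?_, ?_, ?_⟩
    · intro δ hδ
      exact hDm δ (Finset.mem_filter.1 hδ).1
    · intro δ hδ hδt
      have h1 := (Finset.mem_filter.1 hδ).2
      have h2 := ((hmt δ).1 hδt).2
      simp [h1] at h2
    · intro x hx
      exact hn _ ⟨x, hx, rfl⟩

/-- Covering lemma for closed sets missing `y`. -/
lemma cover_closed (S : Setup X Y Δ) (L : Lab Y Λ) {y : Y} {l : ℕ → Λ}
    (h : IsBr L y l) {C : Set Y} (hC : IsClosed C) (hy : y ∉ C) :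
    ∃ P : Finset (Cell Δ Λ), (∀ τ ∈ P, ∃ n, τ.1 = brn l n) ∧
      ∀ x, S.f x ∈ C → ∃ τ ∈ P, S.b x ∈ Nb S L τ := by
  classical
  set B := closure (S.b '' (S.f ⁻¹' C)) with hB
  have hBc : IsCompact B := isClosed_closure.isCompact
  have hdis : ∀ z ∈ B, z ∉ S.b '' (S.f ⁻¹' {y}) := by
    rintro z hz ⟨x, hx, rfl⟩
    have hx' : S.f x = y := hx
    have hO : (S.f ⁻¹' C)ᶜ ∈ 𝓝 x := by
      refine (hC.preimage S.cont).isOpen_compl.mem_nhds ?_
      simp [hx', hy]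
    rw [S.ind.nhds_eq_comap, mem_comap] at hO
    obtain ⟨W, hW, hWs⟩ := hO
    obtain ⟨w, hwW, ⟨x', hx'C, rfl⟩⟩ := mem_closure_iff_nhds.1 hz W hW
    exact hWs hwW hx'C
  obtain ⟨P, hP1, hP2⟩ := hBc.elim_finite_subcover_image
    (b := {τ : Cell Δ Λ | ∃ n, τ.1 = brn l n}) (c := fun τ => Nb S L τ)
    (fun τ _ => (isClopen_Nb S L τ).isOpen) (by
      intro z hz
      obtain ⟨τ, hτ, hzτ⟩ := cover_point S L h (hdis z hz)
      exact mem_biUnion hτ hzτ)
  obtain ⟨hPf, hPc⟩ := hP2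
  refine ⟨hPf.toFinset, fun τ hτ => hP1 (by simpa using hτ), fun x hx => ?_⟩
  have : S.b x ∈ B := subset_closure ⟨x, hx, rfl⟩
  obtain ⟨τ, hτ, hxτ⟩ := mem_iUnion₂.1 (hPc this)
  exact ⟨τ, by simpa using hτ, hxτ⟩

/-! ### open expansions -/

lemma exists_O [NormalSpace Y] (S : Setup X Y Δ) (L : Lab Y Λ) (τ : Cell Δ Λ) :
    ∃ O : Set Y, IsOpen O ∧ S.f '' (S.b ⁻¹' Nb S L τ) ⊆ O ∧ Disjoint (closure O) (Fs L τ.1) := by
  have h1 : IsClosed (S.f '' (S.b ⁻¹' Nb S L τ)) :=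
    S.closed _ ((isClopen_Nb S L τ).isClosed.preimage (S_contb S))
  have h2 : IsOpen (Fs L τ.1)ᶜ := (isClosed_Fs L τ.1).isOpen_compl
  have h3 : S.f '' (S.b ⁻¹' Nb S L τ) ⊆ (Fs L τ.1)ᶜ := by
    rintro _ ⟨x, hx, rfl⟩
    exact Nb_Fs S L τ hx
  obtain ⟨u, hu, h4, h5⟩ := normal_exists_closure_subset h1 h2 h3
  exact ⟨u, hu, h4, Set.disjoint_left.2 fun y hy => h5 hy⟩

noncomputable def Op [NormalSpace Y] (S : Setup X Y Δ) (L : Lab Y Λ) (τ : Cell Δ Λ) : Set Y :=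
  (exists_O S L τ).choose

lemma isOpen_Op [NormalSpace Y] (S : Setup X Y Δ) (L : Lab Y Λ) (τ : Cell Δ Λ) :
    IsOpen (Op S L τ) := (exists_O S L τ).choose_spec.1

lemma sub_Op [NormalSpace Y] (S : Setup X Y Δ) (L : Lab Y Λ) (τ : Cell Δ Λ) {x : X}
    (hx : S.b x ∈ Nb S L τ) : S.f x ∈ Op S L τ :=
  (exists_O S L τ).choose_spec.2.1 ⟨x, hx, rfl⟩

lemma Op_disj [NormalSpace Y] (S : Setup X Y Δ) (L : Lab Y Λ) (τ : Cell Δ Λ) {y : Y}
    (hy : y ∈ closure (Op S L τ)) : y ∉ Fs L τ.1 :=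
  Set.disjoint_left.1 (exists_O S L τ).choose_spec.2.2 hy

/-- `P` is a finite family of cells covering the preimage of the closure of `Op τ`. -/
def Cov [NormalSpace Y] (S : Setup X Y Δ) (L : Lab Y Λ) (τ : Cell Δ Λ) (P : Finset (Cell Δ Λ)) :
    Prop := ∀ x, S.f x ∈ closure (Op S L τ) → ∃ τ' ∈ P, S.b x ∈ Nb S L τ'

open Classical in
noncomputable def PP [NormalSpace Y] (S : Setup X Y Δ) (L : Lab Y Λ) (s : List Λ) (τ : Cell Δ Λ) :
    Finset (Cell Δ Λ) :=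
  if h : ∃ P : Finset (Cell Δ Λ), (∀ τ' ∈ P, τ'.1 <+: s) ∧ Cov S L τ P then h.choose else ∅

lemma PP_prefix [NormalSpace Y] (S : Setup X Y Δ) (L : Lab Y Λ) (s : List Λ) (τ : Cell Δ Λ)
    {τ' : Cell Δ Λ} (h : τ' ∈ PP S L s τ) : τ'.1 <+: s := by
  unfold PP at h
  split_ifs at h with h1
  · exact h1.choose_spec.1 τ' h
  · exact absurd h (by simp)

lemma PP_cov [NormalSpace Y] (S : Setup X Y Δ) (L : Lab Y Λ) (s : List Λ) (τ : Cell Δ Λ)
    (h : ∃ P : Finset (Cell Δ Λ), (∀ τ' ∈ P, τ'.1 <+: s) ∧ Cov S L τ P) :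
    Cov S L τ (PP S L s τ) := by
  unfold PP
  rw [dif_pos h]
  exact h.choose_spec.2

/-- one step of the hull -/
def Step [NormalSpace Y] (S : Setup X Y Δ) (L : Lab Y Λ) (s : List Λ) (τ τ' : Cell Δ Λ) : Prop :=
  ∃ s', s' <+: s ∧ τ' ∈ PP S L s' τ

def Reach [NormalSpace Y] (S : Setup X Y Δ) (L : Lab Y Λ) (s : List Λ) (τ τ' : Cell Δ Λ) : Prop :=
  Relation.ReflTransGen (Step S L s) τ τ'

lemma Step.mono [NormalSpace Y] {S : Setup X Y Δ} {L : Lab Y Λ} {s s' : List Λ} (h : s <+: s')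
    {τ τ' : Cell Δ Λ} (hs : Step S L s τ τ') : Step S L s' τ τ' := by
  obtain ⟨a, ha, h2⟩ := hs
  exact ⟨a, ha.trans h, h2⟩

lemma Reach.mono [NormalSpace Y] {S : Setup X Y Δ} {L : Lab Y Λ} {s s' : List Λ} (h : s <+: s')
    {τ τ' : Cell Δ Λ} (hs : Reach S L s τ τ') : Reach S L s' τ τ' := by
  unfold Reach at hs ⊢
  induction hs with
  | refl => exact Relation.ReflTransGen.refl
  | tail _ h2 ih => exact ih.tail (Step.mono h h2)

lemma prefixes_finite (s : List Λ) : {s' : List Λ | s' <+: s}.Finite := by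
  refine (List.finite_toSet s.inits).subset fun s' hs' => ?_
  exact (List.mem_inits s' s).2 hs'

lemma Step_finite [NormalSpace Y] (S : Setup X Y Δ) (L : Lab Y Λ) (s : List Λ) (τ : Cell Δ Λ) :
    {τ' | Step S L s τ τ'}.Finite := by
  have : {τ' | Step S L s τ τ'} ⊆ ⋃ s' ∈ {s' : List Λ | s' <+: s}, (PP S L s' τ : Set (Cell Δ Λ)) := by
    rintro τ' ⟨s', hs', h⟩
    exact mem_biUnion hs' h
  exact ((prefixes_finite s).biUnion fun s' _ => (PP S L s' τ).finite_toSet).subset this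

lemma Reach_countable [NormalSpace Y] (S : Setup X Y Δ) (L : Lab Y Λ) (s : List Λ) (τ : Cell Δ Λ) :
    {τ' | Reach S L s τ τ'}.Countable := by
  let C : ℕ → Set (Cell Δ Λ) := fun n =>
    Nat.rec {τ} (fun _ D => ⋃ σ ∈ D, {τ' | Step S L s σ τ'}) n
  have hC0 : C 0 = {τ} := rfl
  have hCs : ∀ n, C (n + 1) = ⋃ σ ∈ C n, {τ' | Step S L s σ τ'} := fun n => rfl
  have hCc : ∀ n, (C n).Countable := by
    intro n
    induction n with
    | zero => rw [hC0]; exact countable_singleton _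
    | succ n ih => rw [hCs]; exact ih.biUnion fun σ _ => (Step_finite S L s σ).countable
  refine (countable_iUnion hCc).mono ?_
  intro τ' hτ'
  change Relation.ReflTransGen (Step S L s) τ τ' at hτ'
  induction hτ' with
  | refl => exact mem_iUnion.2 ⟨0, by rw [hC0]; rfl⟩
  | tail _ h2 ih =>
    obtain ⟨n, hn⟩ := mem_iUnion.1 ih
    refine mem_iUnion.2 ⟨n + 1, ?_⟩
    rw [hCs]
    exact mem_biUnion hn h2

/-! ### roots -/

lemma wfR : WellFounded (WellOrderingRel : Cell Δ Λ → Cell Δ Λ → Prop) :=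
  WellOrderingRel.isWellOrder.wf

noncomputable def root [NormalSpace Y] (S : Setup X Y Δ) (L : Lab Y Λ) (s : List Λ)
    (τ : Cell Δ Λ) : Cell Δ Λ :=
  wfR.min {ρ | Reach S L s ρ τ} ⟨τ, Relation.ReflTransGen.refl⟩

lemma root_reach [NormalSpace Y] (S : Setup X Y Δ) (L : Lab Y Λ) (s : List Λ) (τ : Cell Δ Λ) :
    Reach S L s (root S L s τ) τ :=
  wfR.min_mem {ρ | Reach S L s ρ τ} ⟨τ, Relation.ReflTransGen.refl⟩

lemma root_min [NormalSpace Y] (S : Setup X Y Δ) (L : Lab Y Λ) (s : List Λ) (τ : Cell Δ Λ)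
    {ρ : Cell Δ Λ} (h : Reach S L s ρ τ) : ¬ WellOrderingRel ρ (root S L s τ) :=
  wfR.not_lt_min {ρ | Reach S L s ρ τ} h

lemma root_le [NormalSpace Y] (S : Setup X Y Δ) (L : Lab Y Λ) {s s' : List Λ} {τ τ' : Cell Δ Λ}
    (h : Reach S L s' (root S L s τ) τ') :
    WellOrderingRel (root S L s' τ') (root S L s τ) ∨ root S L s' τ' = root S L s τ := by
  rcases trichotomous_of WellOrderingRel (root S L s' τ') (root S L s τ) with h1 | h1 | h1
  · exact Or.inl h1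
  · exact Or.inr h1
  · exact absurd h1 (root_min S L s' τ' h)

open Classical in
noncomputable def Bs [NormalSpace Y] (S : Setup X Y Δ) (L : Lab Y Λ) (s s1 : List Λ)
    (τ : Cell Δ Λ) : Finset (Cell Δ Λ) :=
  (PP S L s1 τ).filter fun τ' => root S L s τ' = root S L s τ

open Classical in
noncomputable def Rs [NormalSpace Y] (S : Setup X Y Δ) (L : Lab Y Λ) (s s1 : List Λ)
    (τ : Cell Δ Λ) : Finset (Cell Δ Λ) :=
  (PP S L s1 τ).filter fun τ' => root S L s τ' ≠ root S L s τ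

lemma exists_g [NormalSpace Y] (S : Setup X Y Δ) (L : Lab Y Λ) (s s1 : List Λ) (τ : Cell Δ Λ) :
    ∃ g : Y → ℝ, Continuous g ∧ (∀ y, 0 ≤ g y) ∧ (∀ y, g y ≤ 1) ∧
      (∀ y, g y ≠ 0 → s1 <+: s ∧ ∀ x, S.f x = y → ∃ τ' ∈ Bs S L s s1 τ, S.b x ∈ Nb S L τ') ∧
      (s1 <+: s → Cov S L τ (PP S L s1 τ) → ∀ y ∈ closure (Op S L τ),
        (∀ r ∈ Rs S L s s1 τ, y ∉ Op S L r) → g y = 1) := by
  classical
  by_cases hc : s1 <+: s ∧ Cov S L τ (PP S L s1 τ)
  · obtain ⟨hs, hcov⟩ := hc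
    -- the closed set where `g = 1`
    have hA : IsClosed (closure (Op S L τ) ∩ ⋂ r ∈ Rs S L s s1 τ, (Op S L r)ᶜ) :=
      isClosed_closure.inter (isClosed_biInter fun r _ => (isOpen_Op S L r).isClosed_compl)
    -- the closed set where `g = 0`
    set W : Set X := S.b ⁻¹' (⋃ τ' ∈ Bs S L s s1 τ, Nb S L τ') with hW
    have hWo : IsOpen W :=
      (isOpen_biUnion fun τ' _ => (isClopen_Nb S L τ').isOpen).preimage (S_contb S)
    have hB : IsClosed (S.f '' Wᶜ) := S.closed _ hWo.isClosed_compl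
    have hdis : Disjoint (S.f '' Wᶜ)
        (closure (Op S L τ) ∩ ⋂ r ∈ Rs S L s s1 τ, (Op S L r)ᶜ) := by
      rw [Set.disjoint_left]
      rintro _ ⟨x, hx, rfl⟩ ⟨h1, h2⟩
      obtain ⟨τ', hτ', hxτ⟩ := hcov x h1
      by_cases hr : root S L s τ' = root S L s τ
      · exact hx (mem_biUnion (x := τ') (by simpa [Bs] using ⟨hτ', hr⟩) hxτ)
      · have := mem_iInter₂.1 h2 τ' (by simp only [Rs, Finset.mem_filter]; exact ⟨hτ', hr⟩)
        exact this (sub_Op S L τ' hxτ)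
    obtain ⟨g, hg0, hg1, hg⟩ := exists_continuous_zero_one_of_isClosed hB hA hdis
    refine ⟨g, g.continuous, fun y => (hg y).1, fun y => (hg y).2, ?_, ?_⟩
    · intro y hy
      refine ⟨hs, fun x hx => ?_⟩
      by_contra hcon
      push Not at hcon
      apply hy
      refine hg0 ⟨x, ?_, hx⟩
      intro hxW
      obtain ⟨τ', hτ', hxτ⟩ := mem_iUnion₂.1 hxW
      exact hcon τ' hτ' hxτ
    · intro _ _ y hy hr
      exact hg1 ⟨hy, mem_iInter₂.2 fun r hr' => hr r hr'⟩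
  · refine ⟨fun _ => 0, continuous_const, fun _ => le_rfl, fun _ => zero_le_one, ?_, ?_⟩
    · intro y hy; exact absurd rfl hy
    · intro h1 h2; exact absurd ⟨h1, h2⟩ hc

noncomputable def gg [NormalSpace Y] (S : Setup X Y Δ) (L : Lab Y Λ) (s s1 : List Λ)
    (τ : Cell Δ Λ) : Y → ℝ := (exists_g S L s s1 τ).choose

/-- the product of the bump functions of a list -/
noncomputable def hs (L : Lab Y Λ) (s : List Λ) (y : Y) : ℝ := (s.map fun l => L.h l y).prod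

lemma hs_cons (L : Lab Y Λ) (a : Λ) (s : List Λ) (y : Y) :
    hs L (a :: s) y = L.h a y * hs L s y := by simp [hs]

lemma hs_cont (L : Lab Y Λ) (s : List Λ) : Continuous (hs L s) := by
  induction s with
  | nil =>
    have : hs L [] = fun _ => 1 := by funext y; simp [hs]
    rw [this]; exact continuous_const
  | cons a s ih =>
    have : hs L (a :: s) = fun y => L.h a y * hs L s y := by
      funext y; exact hs_cons L a s y
    rw [this]
    exact (L.hc a).mul ih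

lemma hs_bd (L : Lab Y Λ) (s : List Λ) (y : Y) : 0 ≤ hs L s y ∧ hs L s y ≤ 1 := by
  induction s with
  | nil => simp [hs]
  | cons a s ih =>
    rw [hs_cons]
    exact ⟨mul_nonneg (L.h0 a y) ih.1, mul_le_one₀ (L.h1 a y) ih.1 ih.2⟩

lemma hs_ne (L : Lab Y Λ) (s : List Λ) (y : Y) (h : ∀ l ∈ s, L.h l y ≠ 0) : hs L s y ≠ 0 := by
  induction s with
  | nil => simp [hs]
  | cons a s ih =>
    rw [hs_cons]
    exact mul_ne_zero (h a (by simp)) (ih fun l hl => h l (by simp [hl]))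

lemma hs_finite (L : Lab Y Λ) (y : Y) (cs : List ℕ) :
    {s : List Λ | s.map L.c = cs ∧ hs L s y ≠ 0}.Finite := by
  induction cs with
  | nil =>
    refine (finite_singleton ([] : List Λ)).subset ?_
    rintro s ⟨h, _⟩
    simpa using h
  | cons k cs ih =>
    have := Set.Finite.image2 (fun (a : Λ) (s : List Λ) => a :: s) (L.cf y k) ih
    refine this.subset ?_
    rintro s ⟨h1, h2⟩
    cases s with
    | nil => simp at h1
    | cons a s =>
      simp only [List.map_cons, List.cons.injEq] at h1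
      rw [hs_cons] at h2
      exact ⟨a, ⟨h1.1, left_ne_zero_of_mul h2⟩, s, ⟨h1.2, right_ne_zero_of_mul h2⟩, rfl⟩

/-! ### the family of functions -/

noncomputable def en [NormalSpace Y] (S : Setup X Y Δ) (L : Lab Y Λ) (s : List Λ) (ρ : Cell Δ Λ) :
    Cell Δ Λ → ℕ := (Set.countable_iff_exists_injOn.1 (Reach_countable S L s ρ)).choose

lemma en_inj [NormalSpace Y] (S : Setup X Y Δ) (L : Lab Y Λ) (s : List Λ) (ρ : Cell Δ Λ) :
    Set.InjOn (en S L s ρ) {τ | Reach S L s ρ τ} :=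
  (Set.countable_iff_exists_injOn.1 (Reach_countable S L s ρ)).choose_spec

noncomputable def lv [NormalSpace Y] (S : Setup X Y Δ) (L : Lab Y Λ) (s1 : List Λ)
    (τ : Cell Δ Λ) : ℕ := (PP S L s1 τ).sup fun τ' => τ'.2.1

abbrev Idx (Δ Λ : Type) := List Λ ⊕ (List Λ × List Λ × Cell Δ Λ)

noncomputable def uu [NormalSpace Y] (S : Setup X Y Δ) (L : Lab Y Λ) : Idx Δ Λ → Y → ℝ
  | Sum.inl s, y => hs L s y
  | Sum.inr (s, s1, τ), y => hs L s y * gg S L s s1 τ y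

noncomputable def code [NormalSpace Y] (S : Setup X Y Δ) (L : Lab Y Λ) :
    Idx Δ Λ → (List ℕ ⊕ (List ℕ × ℕ × ℕ × ℕ))
  | Sum.inl s => Sum.inl (s.map L.c)
  | Sum.inr (s, s1, τ) =>
      Sum.inr (s.map L.c, s1.length, lv S L s1 τ, en S L s (root S L s τ) τ)

lemma gg_cont [NormalSpace Y] (S : Setup X Y Δ) (L : Lab Y Λ) (s s1 : List Λ) (τ : Cell Δ Λ) :
    Continuous (gg S L s s1 τ) := (exists_g S L s s1 τ).choose_spec.1

lemma gg_bd [NormalSpace Y] (S : Setup X Y Δ) (L : Lab Y Λ) (s s1 : List Λ) (τ : Cell Δ Λ) (y : Y) :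
    0 ≤ gg S L s s1 τ y ∧ gg S L s s1 τ y ≤ 1 :=
  ⟨(exists_g S L s s1 τ).choose_spec.2.1 y, (exists_g S L s s1 τ).choose_spec.2.2.1 y⟩

lemma gg_ne [NormalSpace Y] (S : Setup X Y Δ) (L : Lab Y Λ) (s s1 : List Λ) (τ : Cell Δ Λ) (y : Y)
    (h : gg S L s s1 τ y ≠ 0) :
    s1 <+: s ∧ ∀ x, S.f x = y → ∃ τ' ∈ Bs S L s s1 τ, S.b x ∈ Nb S L τ' :=
  (exists_g S L s s1 τ).choose_spec.2.2.2.1 y h

lemma gg_one [NormalSpace Y] (S : Setup X Y Δ) (L : Lab Y Λ) (s s1 : List Λ) (τ : Cell Δ Λ)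
    (h1 : s1 <+: s) (h2 : Cov S L τ (PP S L s1 τ)) {y : Y} (hy : y ∈ closure (Op S L τ))
    (hr : ∀ r ∈ Rs S L s s1 τ, y ∉ Op S L r) : gg S L s s1 τ y = 1 :=
  (exists_g S L s s1 τ).choose_spec.2.2.2.2 h1 h2 y hy hr

lemma uu_cont [NormalSpace Y] (S : Setup X Y Δ) (L : Lab Y Λ) (i : Idx Δ Λ) :
    Continuous (uu S L i) := by
  rcases i with s | ⟨s, s1, τ⟩
  · exact hs_cont L s
  · exact (hs_cont L s).mul (gg_cont S L s s1 τ)

lemma uu_bd [NormalSpace Y] (S : Setup X Y Δ) (L : Lab Y Λ) (i : Idx Δ Λ) (y : Y) :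
    0 ≤ uu S L i y ∧ uu S L i y ≤ 1 := by
  rcases i with s | ⟨s, s1, τ⟩
  · exact hs_bd L s y
  · exact ⟨mul_nonneg (hs_bd L s y).1 (gg_bd S L s s1 τ y).1,
      mul_le_one₀ (hs_bd L s y).2 (gg_bd S L s s1 τ y).1 (gg_bd S L s s1 τ y).2⟩

lemma uu_finite [NormalSpace Y] (S : Setup X Y Δ) (L : Lab Y Λ) (y : Y)
    (k : List ℕ ⊕ (List ℕ × ℕ × ℕ × ℕ)) :
    {i | code S L i = k ∧ uu S L i y ≠ 0}.Finite := by
  classical
  rcases k with cs | ⟨cs, k, M, e⟩
  · refine ((hs_finite L y cs).image Sum.inl).subset ?_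
    rintro (s | ⟨s, s1, τ⟩) ⟨h1, h2⟩
    · exact ⟨s, ⟨by simpa [code] using h1, h2⟩, rfl⟩
    · simp [code] at h1
  · obtain ⟨x, hx⟩ := S.surj y
    -- candidate cells τ'
    have hcand : ∀ s : List Λ, {τ' : Cell Δ Λ | τ'.1 <+: s ∧ τ'.2.1 ≤ M ∧
        τ'.2.2 ⊆ trunc S M x}.Finite := by
      intro s
      have h3 : {t : Finset Δ | t ⊆ trunc S M x}.Finite := by
        refine ((trunc S M x).powerset.finite_toSet).subset fun t ht => ?_
        simpa using ht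
      refine ((prefixes_finite s).prod ((finite_Iic M).prod h3)).subset ?_
      rintro ⟨a, b, c⟩ ⟨h1, h2, h3⟩
      exact ⟨h1, h2, h3⟩
    have hfin : (⋃ s ∈ {s : List Λ | s.map L.c = cs ∧ hs L s y ≠ 0},
        ⋃ s1 ∈ {s' : List Λ | s' <+: s},
        ⋃ τ' ∈ {τ' : Cell Δ Λ | τ'.1 <+: s ∧ τ'.2.1 ≤ M ∧ τ'.2.2 ⊆ trunc S M x},
        {i : Idx Δ Λ | ∃ τ, i = Sum.inr (s, s1, τ) ∧ Reach S L s (root S L s τ') τ ∧
          en S L s (root S L s τ') τ = e}).Finite := by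
      refine (hs_finite L y cs).biUnion fun s _ => (prefixes_finite s).biUnion fun s1 _ =>
        (hcand s).biUnion fun τ' _ => Set.Subsingleton.finite ?_
      rintro i ⟨τ, rfl, h1, h2⟩ j ⟨σ, rfl, h3, h4⟩
      have := en_inj S L s (root S L s τ') h1 h3 (h2.trans h4.symm)
      rw [this]
    refine hfin.subset ?_
    rintro (s | ⟨s, s1, τ⟩) ⟨h1, h2⟩
    · simp [code] at h1
    · simp only [code, Sum.inr.injEq, Prod.mk.injEq] at h1
      obtain ⟨h1a, h1b, h1c, h1d⟩ := h1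
      have h3 : hs L s y ≠ 0 := left_ne_zero_of_mul h2
      have h4 : gg S L s s1 τ y ≠ 0 := right_ne_zero_of_mul h2
      obtain ⟨h5, h6⟩ := gg_ne S L s s1 τ y h4
      obtain ⟨τ', hτ', hxτ⟩ := h6 x hx
      simp only [Bs, Finset.mem_filter] at hτ'
      have hM : τ'.2.1 ≤ M := by
        rw [← h1c]
        exact Finset.le_sup (f := fun τ' : Cell Δ Λ => τ'.2.1) hτ'.1
      refine mem_biUnion (x := s) ⟨h1a, h3⟩ (mem_biUnion (x := s1) h5
        (mem_biUnion (x := τ') ⟨(PP_prefix S L s1 τ hτ'.1).trans h5, hM, ?_⟩ ?_))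
      · intro δ hδ
        obtain ⟨h7, h8⟩ := Nb_sub S L τ' hxτ δ hδ
        exact (mem_trunc S M x δ).2 ⟨h7.trans hM, h8⟩
      · refine ⟨τ, rfl, ?_, ?_⟩
        · rw [hτ'.2]; exact root_reach S L s τ
        · rw [hτ'.2]; exact h1d

/-! ### separation -/

lemma exists_branch (L : Lab Y Λ) {y : Y}
    (h : ∀ O ∈ 𝓝 y, ∃ a, y ∈ L.F a ∧ L.F a ⊆ O ∧ L.h a y ≠ 0) : ∃ l : ℕ → Λ, IsBr L y l := by
  set A : Set Λ := {a | y ∈ L.F a ∧ L.h a y ≠ 0} with hA
  have hne : A.Nonempty := by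
    obtain ⟨a, h1, _, h3⟩ := h univ univ_mem
    exact ⟨a, h1, h3⟩
  have hc : A.Countable := by
    have : A ⊆ ⋃ k, {a | L.c a = k ∧ L.h a y ≠ 0} := by
      intro a ha
      exact mem_iUnion.2 ⟨L.c a, rfl, ha.2⟩
    exact (countable_iUnion fun k => (L.cf y k).countable).mono this
  obtain ⟨l, hl⟩ := hc.exists_eq_range hne
  have hmem : ∀ i, l i ∈ A := fun i => by rw [hl]; exact mem_range_self i
  refine ⟨l, fun i => (hmem i).1, fun i => (hmem i).2, fun O hO => ?_⟩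
  obtain ⟨a, h1, h2, h3⟩ := h O hO
  have : a ∈ A := ⟨h1, h3⟩
  rw [hl] at this
  obtain ⟨i, rfl⟩ := this
  exact ⟨i, h2⟩

lemma separation [NormalSpace Y] (S : Setup X Y Δ) (L : Lab Y Λ) {y : Y} {l : ℕ → Λ}
    (h : IsBr L y l) (U : Ultrafilter Y)
    (hU : ∀ i, Tendsto (uu S L i) U (𝓝 (uu S L i y))) : (U : Filter Y) ≤ 𝓝 y := by
  classical
  by_contra hcon
  -- a closed set in `U` missing `y`
  obtain ⟨O, hO, hyO, hOU⟩ : ∃ O, IsOpen O ∧ y ∈ O ∧ O ∉ U := by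
    by_contra hc
    push Not at hc
    exact hcon fun O hO => by
      obtain ⟨O', h1, h2, h3⟩ := mem_nhds_iff.1 hO
      exact U.sets_of_superset (hc O' h2 h3) h1
  have hCU : Oᶜ ∈ U := Ultrafilter.compl_mem_iff_notMem.2 hOU
  obtain ⟨P, hP1, hP2⟩ := cover_closed S L h hO.isClosed_compl (by simpa using hyO)
  -- some cell of the branch has its closure in `U`
  have hex : ∃ τ : Cell Δ Λ, (∃ n, τ.1 = brn l n) ∧ closure (Op S L τ) ∈ U := by
    have hsub : Oᶜ ⊆ ⋃ τ ∈ P, closure (Op S L τ) := by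
      intro y' hy'
      obtain ⟨x, rfl⟩ := S.surj y'
      obtain ⟨τ, hτ, hxτ⟩ := hP2 x hy'
      exact mem_biUnion (x := τ) hτ (subset_closure (sub_Op S L τ hxτ))
    have := U.sets_of_superset hCU hsub
    have h2 : (⋃ τ ∈ (P : Set (Cell Δ Λ)), closure (Op S L τ)) ∈ U := by simpa using this
    rw [Ultrafilter.finite_biUnion_mem_iff P.finite_toSet] at h2
    obtain ⟨τ, hτ, h3⟩ := h2
    exact ⟨τ, hP1 τ hτ, h3⟩
  -- minimal root
  set Q : Set (Cell Δ Λ) := {ρ | ∃ (τ : Cell Δ Λ) (n : ℕ), (∃ m, τ.1 = brn l m) ∧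
    closure (Op S L τ) ∈ U ∧ root S L (brn l n) τ = ρ} with hQ
  have hQne : Q.Nonempty := by
    obtain ⟨τ, h1, h2⟩ := hex
    exact ⟨_, τ, 0, h1, h2, rfl⟩
  obtain ⟨τ, n0, hτb, hτU, hτr⟩ := wfR.min_mem Q hQne
  have hmin : ∀ ρ ∈ Q, ¬ WellOrderingRel ρ (wfR.min Q hQne) := fun ρ hρ => wfR.not_lt_min Q hρ
  rw [← hτr] at hmin
  -- a finite cover
  have hyτ : y ∉ closure (Op S L τ) := by
    intro hy
    obtain ⟨m, hm⟩ := hτb
    exact Op_disj S L τ hy (by rw [hm]; exact h.mem_Fs m)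
  obtain ⟨P', hP1', hP2'⟩ := cover_closed S L h (isClosed_closure (s := Op S L τ)) hyτ
  choose! ν hν using hP1'
  set n1 := P'.sup ν with hn1
  have hcov : Cov S L τ (PP S L (brn l n1) τ) := by
    refine PP_cov S L _ τ ⟨P', fun τ' hτ' => ?_, hP2'⟩
    rw [hν τ' hτ']
    exact brn_prefix l (Finset.le_sup hτ')
  set n := max n0 n1 with hn
  have hr0 : root S L (brn l n) τ = root S L (brn l n0) τ := by
    rcases root_le S L (s := brn l n0) (s' := brn l n) (τ := τ) (τ' := τ)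
      ((root_reach S L (brn l n0) τ).mono (brn_prefix l (le_max_left _ _))) with h1 | h1
    · exact absurd h1 (hmin _ ⟨τ, n, hτb, hτU, rfl⟩)
    · exact h1
  -- elements of `Rs` are not in `U`
  have hR : ∀ r ∈ Rs S L (brn l n) (brn l n1) τ, (Op S L r)ᶜ ∈ U := by
    intro r hr
    simp only [Rs, Finset.mem_filter] at hr
    have hstep : Reach S L (brn l n) (root S L (brn l n) τ) r :=
      (root_reach S L (brn l n) τ).tail ⟨brn l n1, brn_prefix l (le_max_right _ _), hr.1⟩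
    have hlt : WellOrderingRel (root S L (brn l n) r) (root S L (brn l n) τ) := by
      rcases root_le S L hstep with h1 | h1
      · exact h1
      · exact absurd h1 hr.2
    rw [Ultrafilter.compl_mem_iff_notMem]
    intro hrU
    rw [hr0] at hlt
    refine hmin _ ⟨r, n, ?_, U.sets_of_superset hrU subset_closure, rfl⟩ hlt
    have hpre := PP_prefix S L _ τ hr.1
    -- prefixes of a branch are initial segments of it
    obtain ⟨k, hk⟩ : ∃ k, r.1 = (brn l n1).take k := ⟨_, (List.prefix_iff_eq_take.1 hpre)⟩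
    refine ⟨min k n1, ?_⟩
    rw [hk]
    unfold brn
    rw [← List.map_take, List.take_range]
  set i : Idx Δ Λ := Sum.inr (brn l n, brn l n1, τ) with hi
  have hone : {y' | gg S L (brn l n) (brn l n1) τ y' = 1} ∈ U := by
    have : closure (Op S L τ) ∩ ⋂ r ∈ Rs S L (brn l n) (brn l n1) τ, (Op S L r)ᶜ ∈ U := by
      refine inter_mem hτU ?_
      exact (Filter.biInter_finset_mem _).2 fun r hr => hR r hr
    refine U.sets_of_superset this ?_
    rintro y' ⟨h1, h2⟩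
    exact gg_one S L _ _ τ (brn_prefix l (le_max_right _ _)) hcov h1
      fun r hr => mem_iInter₂.1 h2 r hr
  have hzero : gg S L (brn l n) (brn l n1) τ y = 0 := by
    by_contra hne
    obtain ⟨_, h2⟩ := gg_ne S L _ _ τ y hne
    obtain ⟨x, hx⟩ := S.surj y
    obtain ⟨τ', hτ', hxτ⟩ := h2 x hx
    simp only [Bs, Finset.mem_filter] at hτ'
    have hpre := PP_prefix S L _ τ hτ'.1
    refine Nb_Fs S L τ' hxτ ?_
    rw [hx]
    intro a ha
    exact h.mem_Fs n1 a (hpre.subset ha)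
  have hpos : hs L (brn l n) y ≠ 0 := by
    refine hs_ne L _ y fun a ha => ?_
    obtain ⟨j, _, rfl⟩ := (mem_brn l).1 ha
    exact h.pos j
  -- limits
  have h1 : Tendsto (hs L (brn l n)) U (𝓝 (hs L (brn l n) y)) := hU (Sum.inl (brn l n))
  have h2 : Tendsto (uu S L i) U (𝓝 0) := by
    have := hU i
    have hz : uu S L i y = 0 := by
      change hs L (brn l n) y * gg S L (brn l n) (brn l n1) τ y = 0
      rw [hzero, mul_zero]
    rwa [hz] at this
  have h3 : Tendsto (uu S L i) U (𝓝 (hs L (brn l n) y)) := by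
    refine h1.congr' ?_
    filter_upwards [hone] with y' hy'
    change _ = hs L (brn l n) y' * gg S L (brn l n) (brn l n1) τ y'
    rw [show gg S L (brn l n) (brn l n1) τ y' = 1 from hy', mul_one]
  exact hpos (tendsto_nhds_unique h3 h2)

/-- The main tool: a continuous map into `c_0` which induces the topology at every point where the
labels converge. -/
theorem main [NormalSpace Y] (S : Setup X Y Δ) (L : Lab Y Λ) :
    ∃ (Γ' : Type) (g : Y → (Γ' → ℝ)), Continuous g ∧ (∀ y, Tendsto (g y) cofinite (𝓝 0)) ∧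
      ∀ y, (∀ O ∈ 𝓝 y, ∃ a, y ∈ L.F a ∧ L.F a ⊆ O ∧ L.h a y ≠ 0) →
        𝓝 y = comap g (𝓝 (g y)) := by
  classical
  let κ : Idx Δ Λ → ℕ := fun i => Encodable.encode (code S L i)
  let g : Y → (Idx Δ Λ → ℝ) := fun y i => uu S L i y / (κ i + 1)
  have hgc : Continuous g := by
    refine continuous_pi fun i => ?_
    exact (uu_cont S L i).div_const _
  have hκ : ∀ i, (0 : ℝ) < κ i + 1 := fun i => by positivity
  refine ⟨Idx Δ Λ, g, hgc, ?_, ?_⟩
  · intro y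
    rw [Metric.tendsto_nhds]
    intro ε hε
    rw [Filter.eventually_cofinite]
    obtain ⟨N, hN⟩ := exists_nat_gt (1 / ε)
    have hfin : (⋃ k ∈ {k : List ℕ ⊕ (List ℕ × ℕ × ℕ × ℕ) | Encodable.encode k ≤ N},
        {i | code S L i = k ∧ uu S L i y ≠ 0}).Finite := by
      refine Set.Finite.biUnion ?_ fun k _ => uu_finite S L y k
      exact (finite_Iic N).preimage Encodable.encode_injective.injOn
    refine hfin.subset ?_
    intro i hi
    have hi' : ¬ dist (g y i) 0 < ε := hi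
    rw [dist_zero_right, Real.norm_eq_abs, not_lt] at hi'
    have h1 := uu_bd S L i y
    have h2 : uu S L i y ≠ 0 := by
      intro h0
      have : g y i = 0 := by simp [g, h0]
      rw [this, abs_zero] at hi'
      linarith
    refine mem_biUnion (x := code S L i) ?_ ⟨rfl, h2⟩
    change κ i ≤ N
    have h3 : |g y i| ≤ 1 / (κ i + 1) := by
      change |uu S L i y / (κ i + 1)| ≤ _
      rw [abs_of_nonneg (div_nonneg h1.1 (hκ i).le)]
      exact div_le_div_of_nonneg_right h1.2 (hκ i).le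
    have h4 : ε * (κ i + 1) ≤ 1 := by
      have := hi'.trans h3
      rwa [le_div_iff₀ (hκ i)] at this
    have h5 : (κ i : ℝ) + 1 ≤ 1 / ε := by
      rw [le_div_iff₀ hε]; linarith
    have h6 : (κ i : ℝ) < N := by linarith
    exact_mod_cast h6.le
  · intro y hy
    refine le_antisymm (hgc.tendsto y).le_comap ?_
    rw [le_iff_ultrafilter]
    intro U hU
    obtain ⟨l, hl⟩ := exists_branch L hy
    refine separation S L hl U fun i => ?_
    have h1 : Tendsto g U (𝓝 (g y)) := tendsto_iff_comap.2 hU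
    have h2 : Tendsto (fun y' => g y' i) U (𝓝 (g y i)) :=
      (tendsto_pi_nhds.1 h1) i
    have h3 : Tendsto (fun y' => g y' i * (κ i + 1)) U (𝓝 (g y i * (κ i + 1))) :=
      h2.mul_const _
    have h4 : ∀ y', g y' i * (κ i + 1) = uu S L i y' := fun y' => by
      change uu S L i y' / (κ i + 1) * (κ i + 1) = _
      rw [div_mul_cancel₀ _ (hκ i).ne']
    simpa only [h4] using h3

end Pool.Agent.Helper53.MR
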