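import Pool.Agent.Helper53.MR.AlephOne

set_option autoImplicit false
open Filter Topology Set

namespace Pool.Agent.Helper53.MR

variable {X Y Γ : Type} [TopologicalSpace X] [TopologicalSpace Y]

/-- countable metacompactness gives the closed-set form. -/
lemma cpar_of_countablyMetacompact
    (h : ∀ U : ℕ → Set X, (∀ n, IsOpen (U n)) → (⋃ n, U n) = univ →
      ∃ V : ℕ → Set X, (∀ n, IsOpen (V n)) ∧ (∀ n, V n ⊆ U n) ∧ (⋃ n, V n) = univ ∧
        ∀ x, {n | x ∈ V n}.Finite) : CPar X := by
  intro D hD hm hE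
  obtain ⟨V, hV, hVU, hc, hfin⟩ := h (fun n => (D n)ᶜ) (fun n => (hD n).isOpen_compl) (by
    rw [← compl_iInter, hE, compl_empty])
  refine ⟨fun k => ⋃ n ∈ {n | k < n}, V n, fun k => isOpen_biUnion fun n _ => hV n, ?_, ?_⟩
  · intro k x hx
    have : x ∈ ⋃ n, V n := by rw [hc]; trivial
    obtain ⟨n, hn⟩ := mem_iUnion.1 this
    refine mem_biUnion (x := n) ?_ hn
    change k < n
    by_contra hkn
    exact hVU n hn (hm (not_lt.1 hkn) hx)
  · rw [Set.eq_empty_iff_forall_notMem]
    intro x hx
    rw [mem_iInter] at hx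
    obtain ⟨k, hk⟩ := (hfin x).bddAbove
    obtain ⟨n, hn, hxn⟩ := mem_iUnion₂.1 (hx k)
    have h1 : n ≤ k := hk hxn
    have h2 : k < n := hn
    omega

lemma countable_supp {x : Γ → ℝ} (h : Tendsto x cofinite (𝓝 0)) : {γ | x γ ≠ 0}.Countable := by
  have h1 := h.countable_compl_preimage_ker
  rw [ker_nhds] at h1
  refine h1.mono ?_
  intro γ hγ
  simpa using hγ

theorem density_one {X Y Γ : Type} [TopologicalSpace X] [TopologicalSpace Y] [NormalSpace X]
    (hX : CPar X) (D : Set X) (hD : Dense D) (hDc : Cardinal.mk D ≤ Cardinal.aleph 1)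
    (e : X → (Γ → ℝ)) (he : IsEmbedding e) (h0 : ∀ x, Tendsto (e x) cofinite (𝓝 0))
    (f : X → Y) (hf : IsProperMap f) (hs : Function.Surjective f) :
    ∃ (Γ' : Type) (g : Y → (Γ' → ℝ)), IsEmbedding g ∧ ∀ y, Tendsto (g y) cofinite (𝓝 0) := by
  classical
  set G : Set Γ := ⋃ d : D, {γ | e d γ ≠ 0} with hG
  have hzero : ∀ x, ∀ γ ∉ G, e x γ = 0 := by
    intro x γ hγ
    have hcl : IsClosed {x | e x γ = 0} :=
      isClosed_eq ((continuous_apply γ).comp he.continuous) continuous_const
    have hsub : D ⊆ {x | e x γ = 0} := by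
      intro d hd
      by_contra hne
      exact hγ (mem_iUnion.2 ⟨⟨d, hd⟩, hne⟩)
    have : closure D ⊆ {x | e x γ = 0} := closure_minimal hsub hcl
    exact this (hD x)
  have hcard : Cardinal.mk G ≤ Cardinal.aleph 1 := by
    refine (Cardinal.mk_iUnion_le _).trans ?_
    refine (mul_le_mul' hDc (ciSup_le' fun d => ?_)).trans
      (Cardinal.mul_eq_self (Cardinal.aleph0_le_aleph 1)).le
    exact (Cardinal.le_aleph0_iff_set_countable.2 (countable_supp (h0 d))).trans
      (Cardinal.aleph0_le_aleph 1)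
  let ext : (G → ℝ) → (Γ → ℝ) := fun z γ => if h : γ ∈ G then z ⟨γ, h⟩ else 0
  have hext : Continuous ext := by
    refine continuous_pi fun γ => ?_
    by_cases h : γ ∈ G
    · simp only [ext, dif_pos h]
      exact continuous_apply _
    · simp only [ext, dif_neg h]
      exact continuous_const
  let e' : X → (G → ℝ) := fun x γ => e x γ
  have he'c : Continuous e' := continuous_pi fun γ => (continuous_apply _).comp he.continuous
  have hcomp : ext ∘ e' = e := by
    funext x γ
    by_cases h : γ ∈ G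
    · simp [ext, e', h]
    · simp only [Function.comp, ext, dif_neg h]
      exact (hzero x γ h).symm
  have he' : IsEmbedding e' := by
    refine IsEmbedding.of_comp he'c hext ?_
    rw [hcomp]; exact he
  have h0' : ∀ x, Tendsto (e' x) cofinite (𝓝 0) := fun x =>
    (h0 x).comp Subtype.val_injective.tendsto_cofinite
  exact aleph_one hX hcard e' he' h0' f hf hs

end Pool.Agent.Helper53.MR
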