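import Pool.Agent.Helper53.MR.Good
import Pool.Agent.Helper53.MR.DensityOne

set_option autoImplicit false
set_option linter.unusedSectionVars false
open Filter Topology Set

namespace Pool.Agent.Helper53.MR

variable {X Y Δ I Γ : Type} [TopologicalSpace X] [TopologicalSpace Y]

section expand

variable [LinearOrder I] (S : Setup X Y Δ) (G : I → Set Y)

/-- the union of the earlier sets -/
def Vlt (i : I) : Set Y := ⋃ j, ⋃ (_ : j < i), G j

lemma Vlt_sub {i j : I} (h : i < j) : Vlt G i ∪ G i ⊆ Vlt G j := by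
  refine union_subset (iUnion₂_subset fun k hk => ?_) ?_
  · exact subset_iUnion₂ (s := fun k (_ : k < j) => G k) k (hk.trans h)
  · exact subset_iUnion₂ (s := fun k (_ : k < j) => G k) i h

/-- the truncation `(t, m)` decides `i` -/
def Dc (t : Finset Δ) (m : ℕ) (i : I) : Prop :=
  EE S m t ⊆ Vlt G i ∪ G i ∧ ¬ EE S m t ⊆ Vlt G i

lemma Dc_unique {t : Finset Δ} {m : ℕ} {i j : I} (hi : Dc S G t m i) (hj : Dc S G t m j) :
    i = j := by
  rcases lt_trichotomy i j with h | h | h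
  · exact absurd (hi.1.trans (Vlt_sub G h)) hj.2
  · exact h
  · exact absurd (hj.1.trans (Vlt_sub G h)) hi.2

/-- the point-finite open expansions -/
def OO (i : I) (n : ℕ) : Set Y :=
  {y | ∀ x, S.f x = y → ∃ m ≤ n, ∃ t : Finset Δ, (∀ δ ∈ t, S.b x δ = true) ∧ Dc S G t m i}

lemma isOpen_OO (i : I) (n : ℕ) : IsOpen (OO S G i n) := by
  have h : IsOpen (⋃ (m : ℕ) (_ : m ≤ n) (t : Finset Δ) (_ : Dc S G t m i),
      {x | ∀ δ ∈ t, S.b x δ = true}) :=
    isOpen_iUnion fun m => isOpen_iUnion fun _ => isOpen_iUnion fun t => isOpen_iUnion fun _ =>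
      isOpen_up S t
  have e : OO S G i n = {y | ∀ x, S.f x = y → x ∈ ⋃ (m : ℕ) (_ : m ≤ n) (t : Finset Δ)
      (_ : Dc S G t m i), {x | ∀ δ ∈ t, S.b x δ = true}} := by
    ext y
    simp only [OO, mem_ofPred_eq, mem_iUnion, exists_prop]
    constructor
    · intro h x hx
      obtain ⟨m, hm, t, h1, h2⟩ := h x hx
      exact ⟨m, hm, t, h2, h1⟩
    · intro h x hx
      obtain ⟨m, hm, t, h1, h2⟩ := h x hx
      exact ⟨m, hm, t, h2, h1⟩
  rw [e]
  exact isOpen_dual S h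

lemma OO_mono (i : I) : Monotone (OO S G i) := by
  intro n n' h y hy x hx
  obtain ⟨m, hm, t, h1, h2⟩ := hy x hx
  exact ⟨m, hm.trans h, t, h1, h2⟩

lemma OO_finite (n : ℕ) (y : Y) : {i | y ∈ OO S G i n}.Finite := by
  classical
  obtain ⟨x, hx⟩ := S.surj y
  have h1 : (⋃ m ∈ Iic n, ⋃ t ∈ {t : Finset Δ | t ⊆ trunc S n x}, {i | Dc S G t m i}).Finite := by
    refine (finite_Iic n).biUnion fun m _ => Set.Finite.biUnion ?_ fun t _ =>
      Set.Subsingleton.finite fun i hi j hj => Dc_unique S G hi hj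
    refine ((trunc S n x).powerset.finite_toSet).subset fun t ht => ?_
    simpa using ht
  refine h1.subset fun i hi => ?_
  obtain ⟨m, hm, t, ht, hd⟩ := hi x hx
  refine mem_biUnion (x := m) hm (mem_biUnion (x := t) ?_ hd)
  obtain ⟨z, ⟨w, hw, -⟩, -⟩ := Set.not_subset.1 hd.2
  intro δ hδ
  have hw' : trunc S m w = t := hw
  have : δ ∈ trunc S m w := by rw [hw']; exact hδ
  exact (mem_trunc S n x δ).2 ⟨((mem_trunc S m w δ).1 this).1.trans hm, ht δ hδ⟩

lemma mem_OO (hG : ∀ i, IsOpen (G i)) {i : I} {y : Y} (h1 : y ∈ G i) (h2 : y ∉ Vlt G i) :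
    ∃ n, y ∈ OO S G i n := by
  have hV : IsOpen (Vlt G i) := isOpen_iUnion fun j => isOpen_iUnion fun _ => hG j
  obtain ⟨n, hn⟩ := EE_conv S ((hV.union (hG i)).mem_nhds (Or.inr h1))
  refine ⟨n, fun x hx => ⟨n, le_rfl, trunc S n x, fun δ hδ => ((mem_trunc S n x δ).1 hδ).2, ?_, ?_⟩⟩
  · rintro _ ⟨w, hw, rfl⟩
    exact hn n le_rfl x hx w hw
  · intro hcon
    exact h2 (hcon ⟨x, rfl, hx⟩)

end expand

/-- In a countably paracompact normal `Y`, every open set is good. -/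
theorem gd_of_cpar [NormalSpace Y] [T1Space Y] (hY : CPar Y) (S : Setup X Y Δ) {V : Set Y}
    (hV : IsOpen V) : Gd V := by
  classical
  obtain ⟨r, hr⟩ := exists_wellFoundedLT V
  set g : V → Y → ℝ := fun v => bump {(v : Y)} V with hg
  set G : V → Set Y := fun v => {y | g v y ≠ 0} with hGdef
  have hGo : ∀ v, IsOpen (G v) := fun v => isOpen_ne_fun (bump_cont _ _) continuous_const
  have hGV : ∀ v, G v ⊆ V := fun v y hy => bump_ne _ _ hy
  have hVo : ∀ v, IsOpen (Vlt G v) := fun v => isOpen_iUnion fun j => isOpen_iUnion fun _ => hGo j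
  set F : V → ℕ → Set Y := fun v j => {y | 1 / ((j : ℝ) + 1) ≤ g v y} \ Vlt G v with hF
  have hFc : ∀ v j, IsClosed (F v j) := fun v j =>
    (isClosed_le continuous_const (bump_cont _ _)).sdiff (hVo v)
  have hpos : ∀ j : ℕ, (0 : ℝ) < 1 / ((j : ℝ) + 1) := fun j => by positivity
  have hFG : ∀ v j, F v j ⊆ G v := fun v j y hy => ((hpos j).trans_le hy.1).ne'
  have hcov : ∀ v j, F v j ⊆ ⋃ n, (OO S G v n ∩ G v) := by
    intro v j y hy
    obtain ⟨n, hn⟩ := mem_OO S G hGo (hFG v j hy) hy.2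
    exact mem_iUnion.2 ⟨n, hn, hFG v j hy⟩
  refine ⟨V × ℕ × ℕ, fun i => bump (shr (F i.1 i.2.1) (fun n => OO S G i.1 n ∩ G i.1) i.2.2)
    (OO S G i.1 i.2.2 ∩ G i.1), fun i => Nat.pair i.2.1 i.2.2, fun i => bump_cont _ _,
    fun i y => bump_nonneg _ _ _, fun i y => bump_le _ _ _,
    fun i y hi => hGV _ (bump_ne _ _ hi).2, ?_, ?_⟩
  · intro y hy
    have hne : {v : V | y ∈ G v}.Nonempty := by
      refine ⟨⟨y, hy⟩, ?_⟩
      show bump {y} V y ≠ 0
      rw [bump_one isClosed_singleton hV (singleton_subset_iff.2 hy) rfl]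
      exact one_ne_zero
    have hwf := (wellFounded_lt (α := V))
    set v := hwf.min {v : V | y ∈ G v} hne with hv
    have h1 : y ∈ G v := hwf.min_mem {v : V | y ∈ G v} hne
    have h2 : y ∉ Vlt G v := by
      intro hcon
      obtain ⟨j, hj, hyj⟩ := mem_iUnion₂.1 hcon
      exact hwf.not_lt_min {v : V | y ∈ G v} (x := j) hyj hj
    have h3 : 0 < g v y := lt_of_le_of_ne (bump_nonneg _ _ _) (Ne.symm h1)
    obtain ⟨j, hj⟩ := exists_nat_one_div_lt h3
    have h4 : y ∈ F v j := ⟨hj.le, h2⟩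
    have h5 := shr_cover hY (hFc v j) (fun n => (isOpen_OO S G v n).inter (hGo v))
      (fun a b hab => inter_subset_inter_left _ (OO_mono S G v hab)) (hcov v j)
    obtain ⟨n, hn⟩ := mem_iUnion.1 (h5 h4)
    refine ⟨(v, j, n), ?_⟩
    show bump _ _ y ≠ 0
    rw [bump_one (shr_closed _ _ _) ((isOpen_OO S G v n).inter (hGo v)) (shr_sub _ _ _) hn]
    exact one_ne_zero
  · intro y k
    refine ((OO_finite S G (Nat.unpair k).2 y).image
      fun v => (v, (Nat.unpair k).1, (Nat.unpair k).2)).subset ?_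
    rintro ⟨v, j, n⟩ ⟨h1, h2⟩
    have h1' : Nat.pair j n = k := h1
    have h3 : j = (Nat.unpair k).1 := by rw [← h1', Nat.unpair_pair]
    have h4 : n = (Nat.unpair k).2 := by rw [← h1', Nat.unpair_pair]
    subst h3 h4
    exact ⟨v, (bump_ne _ _ h2).1, rfl⟩

/-- perfect images onto normal, countably paracompact spaces -/
theorem cpar_embeds [NormalSpace Y] [T1Space Y] (hY : CPar Y)
    (e : X → (Γ → ℝ)) (he : IsEmbedding e) (h0 : ∀ x, Tendsto (e x) cofinite (𝓝 0))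
    (f : X → Y) (hf : IsProperMap f) (hs : Function.Surjective f) :
    ∃ (Γ' : Type) (g : Y → (Γ' → ℝ)), IsEmbedding g ∧ (∀ y, Tendsto (g y) cofinite (𝓝 0)) :=
  embeds_of_gd (mkSetup e he.isInducing h0 f hf hs) fun _ hV =>
    gd_of_cpar hY (mkSetup e he.isInducing h0 f hf hs) hV

end Pool.Agent.Helper53.MR
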