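import Pool.Agent.Helper53.MR.AlephOne

set_option autoImplicit false
set_option linter.unusedSectionVars false
open Filter Topology Set

namespace Pool.Agent.Helper53.MR

variable {X Y Δ Γ : Type} [TopologicalSpace X] [TopologicalSpace Y]

/-- `W` is the union of a `σ`-point-finite family of cozero sets. -/
def Gd (W : Set Y) : Prop :=
  ∃ (I : Type) (h : I → Y → ℝ) (c : I → ℕ), (∀ i, Continuous (h i)) ∧ (∀ i y, 0 ≤ h i y) ∧
    (∀ i y, h i y ≤ 1) ∧ (∀ i y, h i y ≠ 0 → y ∈ W) ∧ (∀ y ∈ W, ∃ i, h i y ≠ 0) ∧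
    ∀ y k, {i | c i = k ∧ h i y ≠ 0}.Finite

lemma Gd.iUnion {J : Type} {W : J → Set Y} (hW : ∀ j, Gd (W j)) (d : J → ℕ)
    (hd : ∀ y k, {j | d j = k ∧ y ∈ W j}.Finite) : Gd (⋃ j, W j) := by
  choose I h c h1 h2 h3 h4 h5 h6 using hW
  refine ⟨Σ j, I j, fun i => h i.1 i.2, fun i => Nat.pair (d i.1) (c i.1 i.2),
    fun i => h1 _ _, fun i y => h2 _ _ _, fun i y => h3 _ _ _,
    fun i y hi => mem_iUnion.2 ⟨i.1, h4 _ _ _ hi⟩, ?_, ?_⟩
  · intro y hy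
    obtain ⟨j, hj⟩ := mem_iUnion.1 hy
    obtain ⟨i, hi⟩ := h5 j y hj
    exact ⟨⟨j, i⟩, hi⟩
  · intro y k
    have hf := (hd y (Nat.unpair k).1).biUnion (t := fun j =>
      (fun i => (⟨j, i⟩ : Σ j, I j)) '' {i | c j i = (Nat.unpair k).2 ∧ h j i y ≠ 0})
      (fun j _ => (h6 j y (Nat.unpair k).2).image _)
    refine hf.subset ?_
    rintro ⟨j, i⟩ ⟨ha, hb⟩
    have ha' : Nat.pair (d j) (c j i) = k := ha
    have h7 : d j = (Nat.unpair k).1 := by rw [← ha', Nat.unpair_pair]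
    have h8 : c j i = (Nat.unpair k).2 := by rw [← ha', Nat.unpair_pair]
    exact mem_biUnion (x := j) ⟨h7, h4 j i y hb⟩ ⟨i, ⟨h8, hb⟩, rfl⟩

lemma Gd.preimage {Z : Type} [TopologicalSpace Z] {W : Set Z} (hW : Gd W) {r : Y → Z}
    (hr : Continuous r) : Gd (r ⁻¹' W) := by
  obtain ⟨I, h, c, h1, h2, h3, h4, h5, h6⟩ := hW
  exact ⟨I, fun i y => h i (r y), c, fun i => (h1 i).comp hr, fun i y => h2 _ _,
    fun i y => h3 _ _, fun i y hi => h4 _ _ hi, fun y hy => h5 _ hy, fun y k => h6 _ _⟩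

/-- labels for the criterion -/
abbrev LG (Δ : Type) (I : ℕ → ℕ → Finset (Finset Δ) → Type) :=
  Σ (n : ℕ) (n' : ℕ) (𝒮 : Finset (Finset Δ)), (𝒮 × I n n' 𝒮)

/-- The criterion: if all open sets are good, then `Y` embeds. -/
theorem embeds_of_gd [NormalSpace Y] [T1Space Y] (S : Setup X Y Δ)
    (hG : ∀ V : Set Y, IsOpen V → Gd V) :
    ∃ (Γ' : Type) (g : Y → (Γ' → ℝ)), IsEmbedding g ∧ (∀ y, Tendsto (g y) cofinite (𝓝 0)) := by
  choose I h c h1 h2 h3 h4 h5 h6 using fun (n n' : ℕ) (𝒮 : Finset (Finset Δ)) =>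
    hG (VV S n n' 𝒮) (isOpen_VV S n n' 𝒮)
  let L : Lab Y (LG Δ I) :=
    { F := fun a => EE S a.1 a.2.2.2.1.1
      Fc := fun a => isClosed_EE S _ _
      h := fun a => h a.1 a.2.1 a.2.2.1 a.2.2.2.2
      hc := fun a => h1 _ _ _ _
      h0 := fun a y => h2 _ _ _ _ _
      h1 := fun a y => h3 _ _ _ _ _
      c := fun a => Nat.pair a.1 (Nat.pair a.2.1 (c a.1 a.2.1 a.2.2.1 a.2.2.2.2))
      cf := by
        intro y k
        set n := (Nat.unpair k).1 with hn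
        set n' := (Nat.unpair (Nat.unpair k).2).1 with hn'
        set m := (Nat.unpair (Nat.unpair k).2).2 with hm
        have hf := (VV_finite S n n' y).biUnion (t := fun 𝒮 =>
          (fun p : 𝒮 × I n n' 𝒮 => (⟨n, n', 𝒮, p⟩ : LG Δ I)) ''
            ((univ : Set 𝒮) ×ˢ {i | c n n' 𝒮 i = m ∧ h n n' 𝒮 i y ≠ 0}))
          (fun 𝒮 _ => (finite_univ.prod (h6 n n' 𝒮 y m)).image _)
        refine hf.subset ?_
        rintro ⟨n₁, n₁', 𝒮, s, i⟩ ⟨ha, hb⟩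
        have ha' : Nat.pair n₁ (Nat.pair n₁' (c n₁ n₁' 𝒮 i)) = k := ha
        have e1 : n₁ = n := by rw [hn, ← ha', Nat.unpair_pair]
        have e2 : n₁' = n' := by rw [hn', ← ha', Nat.unpair_pair, Nat.unpair_pair]
        subst e1 e2
        have e3 : c n n' 𝒮 i = m := by rw [hm, ← ha', Nat.unpair_pair, Nat.unpair_pair]
        exact mem_biUnion (x := 𝒮) (h4 _ _ _ _ _ hb) ⟨(s, i), ⟨mem_univ _, e3, hb⟩, rfl⟩ }
  obtain ⟨Γ', g, g1, g2, g3⟩ := main S L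
  refine ⟨Γ', g, ?_, g2⟩
  have : IsInducing g := isInducing_iff_nhds.2 fun y => g3 y fun O hO => by
    obtain ⟨z, hz, hzn⟩ := exists_lexmin S y
    obtain ⟨n, hn⟩ := EE_conv S hO
    obtain ⟨n', hn'⟩ := mem_VV S n y
    obtain ⟨i, hi⟩ := h5 n n' (Mn S n y) y hn'
    refine ⟨⟨n, n', Mn S n y, ⟨trunc S n z, hzn n⟩, i⟩, ⟨z, rfl, hz⟩, ?_, hi⟩
    rintro _ ⟨w, hw, rfl⟩
    exact hn n le_rfl z hz w hw
  exact this.isEmbedding

end Pool.Agent.Helper53.MR
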