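import Pool.Agent.Helper53.MR.Core

set_option autoImplicit false
open Filter Topology Set

namespace Pool.Agent.Helper53.MR

variable {X Y Δ : Type} [TopologicalSpace X] [TopologicalSpace Y]

lemma trunc_mono (S : Setup X Y Δ) {m n : ℕ} (h : m ≤ n) (x : X) : trunc S m x ⊆ trunc S n x := by
  intro δ hδ
  rw [mem_trunc] at hδ ⊢
  exact ⟨hδ.1.trans h, hδ.2⟩

lemma trunc_sub_of_le (S : Setup X Y Δ) {m n : ℕ} (h : m ≤ n) {x x' : X}
    (hs : trunc S n x ⊆ trunc S n x') : trunc S m x ⊆ trunc S m x' := by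
  intro δ hδ
  rw [mem_trunc] at hδ ⊢
  have := (mem_trunc S n x' δ).1 (hs ((mem_trunc S n x δ).2 ⟨hδ.1.trans h, hδ.2⟩))
  exact ⟨hδ.1, this.2⟩

lemma trunc_eq_of_le (S : Setup X Y Δ) {m n : ℕ} (h : m ≤ n) {x x' : X}
    (hs : trunc S n x = trunc S n x') : trunc S m x = trunc S m x' :=
  (trunc_sub_of_le S h hs.le).antisymm (trunc_sub_of_le S h hs.ge)

lemma isClosed_trunc_eq (S : Setup X Y Δ) (n : ℕ) (s : Finset Δ) :
    IsClosed {x | trunc S n x = s} := by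
  by_cases hs : ∀ δ ∈ s, S.lev δ ≤ n
  · have : {x | trunc S n x = s} = S.b ⁻¹' ((⋂ δ ∈ s, {z | z δ = true}) ∩
        ⋂ δ ∈ {δ | S.lev δ ≤ n ∧ δ ∉ s}, {z | z δ = false}) := by
      ext x
      simp only [mem_ofPred_eq, mem_preimage, mem_inter_iff, mem_iInter]
      constructor
      · rintro rfl
        refine ⟨fun δ hδ => ((mem_trunc S n x δ).1 hδ).2, fun δ hδ => ?_⟩
        by_contra hne
        exact hδ.2 ((mem_trunc S n x δ).2 ⟨hδ.1, by simpa using hne⟩)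
      · rintro ⟨h1, h2⟩
        ext δ
        rw [mem_trunc]
        constructor
        · rintro ⟨h3, h4⟩
          by_contra h5
          have := h2 δ ⟨h3, h5⟩
          rw [this] at h4
          exact absurd h4 (by simp)
        · exact fun h3 => ⟨hs δ h3, h1 δ h3⟩
    rw [this]
    refine IsClosed.preimage (S_contb S) (IsClosed.inter ?_ ?_)
    · exact isClosed_biInter fun δ _ => (isClopen_coord δ true).isClosed
    · exact isClosed_biInter fun δ _ => (isClopen_coord δ false).isClosed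
  · have : {x | trunc S n x = s} = ∅ := by
      ext x
      simp only [mem_ofPred_eq, mem_empty_iff_false, iff_false]
      rintro rfl
      exact hs fun δ hδ => ((mem_trunc S n x δ).1 hδ).1
    rw [this]
    exact isClosed_empty

def EE (S : Setup X Y Δ) (n : ℕ) (s : Finset Δ) : Set Y := S.f '' {x | trunc S n x = s}

lemma isClosed_EE (S : Setup X Y Δ) (n : ℕ) (s : Finset Δ) : IsClosed (EE S n s) :=
  S.closed _ (isClosed_trunc_eq S n s)

/-- the open set of points all of whose preimages contain `t`. -/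
lemma isOpen_up (S : Setup X Y Δ) (t : Finset Δ) : IsOpen {x | ∀ δ ∈ t, S.b x δ = true} := by
  have : {x | ∀ δ ∈ t, S.b x δ = true} = S.b ⁻¹' Box t ∅ := by
    ext x; simp [Box]
  rw [this]
  exact (isClopen_Box t ∅).isOpen.preimage (S_contb S)

lemma isClosed_up (S : Setup X Y Δ) (t : Finset Δ) : IsClosed {x | ∀ δ ∈ t, S.b x δ = true} := by
  have : {x | ∀ δ ∈ t, S.b x δ = true} = S.b ⁻¹' Box t ∅ := by
    ext x; simp [Box]
  rw [this]
  exact (isClopen_Box t ∅).isClosed.preimage (S_contb S)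

lemma isOpen_dual (S : Setup X Y Δ) {W : Set X} (hW : IsOpen W) :
    IsOpen {y | ∀ x, S.f x = y → x ∈ W} := by
  have : {y | ∀ x, S.f x = y → x ∈ W} = (S.f '' Wᶜ)ᶜ := by
    ext y
    simp only [mem_ofPred_eq, mem_compl_iff, mem_image, not_exists, not_and]
    constructor
    · intro h x hx hxy
      exact hx (h x hxy)
    · intro h x hxy
      by_contra hx
      exact h x hx hxy
  rw [this]
  exact (S.closed _ hW.isClosed_compl).isOpen_compl

/-- nearby points with the same truncation are close -/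
lemma trunc_conv (S : Setup X Y Δ) {x : X} {W : Set X} (hW : W ∈ 𝓝 x) :
    ∃ D : Finset Δ, ∀ w, (∀ δ ∈ D, S.b w δ = S.b x δ) → w ∈ W := by
  rw [S.ind.nhds_eq_comap, mem_comap] at hW
  obtain ⟨V, hV, hVW⟩ := hW
  obtain ⟨V', hV'V, hV', hx⟩ := mem_nhds_iff.1 hV
  obtain ⟨D, u, hu, hsub⟩ := isOpen_pi_iff.1 hV' _ hx
  refine ⟨D, fun w hw => hVW (hV'V (hsub ?_))⟩
  intro δ hδ
  rw [hw δ hδ]
  exact (hu δ hδ).2

lemma eq_of_trunc_eq (S : Setup X Y Δ) {n : ℕ} {x w : X} (h : trunc S n w = trunc S n x) {δ : Δ}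
    (hδ : S.lev δ ≤ n) : S.b w δ = S.b x δ := by
  have h1 : S.b w δ = true ↔ S.b x δ = true := by
    have := Finset.ext_iff.1 h δ
    simpa [mem_trunc, hδ] using this
  cases hw : S.b w δ <;> cases hx : S.b x δ <;> simp_all

/-- Uniform convergence of the closed sets `E n (x|n)` to `y`. -/
lemma EE_conv (S : Setup X Y Δ) {y : Y} {O : Set Y} (hO : O ∈ 𝓝 y) :
    ∃ n0, ∀ n ≥ n0, ∀ x, S.f x = y → ∀ w, trunc S n w = trunc S n x → S.f w ∈ O := by
  classical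
  have key : ∀ x ∈ S.f ⁻¹' {y}, ∃ (D : Finset Δ), ∀ w, (∀ δ ∈ D, S.b w δ = S.b x δ) →
      S.f w ∈ O := by
    intro x hx
    exact trunc_conv S (S.cont.continuousAt.preimage_mem_nhds (by rwa [show S.f x = y from hx]))
  choose! D hD using key
  obtain ⟨t, hcov⟩ := (S.cpt y).elim_nhds_subcover'
    (fun x _ => {w | ∀ δ ∈ D x, S.b w δ = S.b x δ}) (by
      intro x hx
      have : {w | ∀ δ ∈ D x, S.b w δ = S.b x δ} = ⋂ δ ∈ D x, S.b ⁻¹' {z | z δ = S.b x δ} := by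
        ext w; simp
      rw [this]
      refine (isOpen_biInter_finset fun δ _ =>
        (isClopen_coord δ _).isOpen.preimage (S_contb S)).mem_nhds ?_
      simp)
  refine ⟨t.sup fun x => (D x).sup S.lev, fun n hn x hx w hw => ?_⟩
  obtain ⟨a, ha, hxa⟩ := mem_iUnion₂.1 (hcov hx)
  refine hD a a.2 w fun δ hδ => ?_
  have hl : S.lev δ ≤ n := by
    have h1 : S.lev δ ≤ (D a).sup S.lev := Finset.le_sup hδ
    have h2 : (D a).sup S.lev ≤ t.sup fun x => (D x).sup S.lev :=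
      Finset.le_sup (f := fun x : S.f ⁻¹' {y} => (D x).sup S.lev) ha
    exact h1.trans (h2.trans hn)
  rw [eq_of_trunc_eq S hw hl]
  exact hxa δ hδ

/-! ### minimal truncations -/

def MinSet (S : Setup X Y Δ) (n : ℕ) (y : Y) : Set (Finset Δ) :=
  {s | (∃ x, S.f x = y ∧ trunc S n x = s) ∧ ∀ x, S.f x = y → trunc S n x ⊆ s → trunc S n x = s}

lemma exists_min_le (S : Setup X Y Δ) (n : ℕ) (x : X) :
    ∃ s ∈ MinSet S n (S.f x), s ⊆ trunc S n x := by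
  classical
  obtain ⟨s, hs1, hs2⟩ := exists_minimal_le_of_wellFoundedLT
    (P := fun s : Finset Δ => ∃ x', S.f x' = S.f x ∧ trunc S n x' = s) (trunc S n x) ⟨x, rfl, rfl⟩
  refine ⟨s, ⟨hs2.prop, fun x' hx' hsub => ?_⟩, hs1⟩
  exact le_antisymm hsub (hs2.le_of_le ⟨x', hx', rfl⟩ hsub)

lemma MinSet_finite (S : Setup X Y Δ) (n : ℕ) (y : Y) : (MinSet S n y).Finite := by
  classical
  obtain ⟨t, ht1, ht2⟩ := (S.cpt y).elim_finite_subcover_image (b := MinSet S n y)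
    (c := fun s => {x | ∀ δ ∈ s, S.b x δ = true}) (fun s _ => isOpen_up S s) (by
      intro x hx
      obtain ⟨s, hs, hsx⟩ := exists_min_le S n x
      rw [show S.f x = y from hx] at hs
      exact mem_biUnion hs fun δ hδ => ((mem_trunc S n x δ).1 (hsx hδ)).2)
  refine ht2.1.subset fun s hs => ?_
  obtain ⟨⟨x, hx, rfl⟩, hmin⟩ := hs
  obtain ⟨s', hs', hxs'⟩ := mem_iUnion₂.1 (ht2.2 hx)
  obtain ⟨⟨x', hx', rfl⟩, _⟩ := ht1 hs'
  have hsub : trunc S n x' ⊆ trunc S n x := by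
    intro δ hδ
    exact (mem_trunc S n x δ).2 ⟨((mem_trunc S n x' δ).1 hδ).1, hxs' δ hδ⟩
  rw [← hmin x' hx' hsub]
  exact hs'

noncomputable def Mn (S : Setup X Y Δ) (n : ℕ) (y : Y) : Finset (Finset Δ) :=
  (MinSet_finite S n y).toFinset

lemma mem_Mn (S : Setup X Y Δ) (n : ℕ) (y : Y) (s : Finset Δ) :
    s ∈ Mn S n y ↔ s ∈ MinSet S n y := by simp [Mn]

def Vb (S : Setup X Y Δ) (𝒮 : Finset (Finset Δ)) : Set Y :=
  {y | ∀ x, S.f x = y → ∃ s ∈ 𝒮, ∀ δ ∈ s, S.b x δ = true}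

lemma isOpen_Vb (S : Setup X Y Δ) (𝒮 : Finset (Finset Δ)) : IsOpen (Vb S 𝒮) := by
  have h : IsOpen (⋃ s ∈ 𝒮, {x | ∀ δ ∈ s, S.b x δ = true}) :=
    isOpen_biUnion fun s _ => isOpen_up S s
  have e : Vb S 𝒮 = {y | ∀ x, S.f x = y → x ∈ ⋃ s ∈ 𝒮, {x | ∀ δ ∈ s, S.b x δ = true}} := by
    ext y
    simp [Vb]
  rw [e]
  exact isOpen_dual S h

lemma mem_Vb_Mn (S : Setup X Y Δ) (n : ℕ) (y : Y) : y ∈ Vb S (Mn S n y) := by
  intro x hx
  obtain ⟨s, hs, hsx⟩ := exists_min_le S n x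
  rw [hx] at hs
  exact ⟨s, (mem_Mn S n y s).2 hs, fun δ hδ => ((mem_trunc S n x δ).1 (hsx hδ)).2⟩

/-- the label `(m, t)` decides the minimal truncations at level `n` -/
def Dec (S : Setup X Y Δ) (m : ℕ) (t : Finset Δ) (n : ℕ) (𝒮 : Finset (Finset Δ)) : Prop :=
  (∀ x, trunc S m x = t → S.f x ∈ Vb S 𝒮) ∧ ∃ x, trunc S m x = t ∧ Mn S n (S.f x) = 𝒮

lemma Dec_sub {S : Setup X Y Δ} {m : ℕ} {t : Finset Δ} {n : ℕ} {𝒮₁ 𝒮₂ : Finset (Finset Δ)}
    (h1 : Dec S m t n 𝒮₁) (h2 : Dec S m t n 𝒮₂) : 𝒮₁ ⊆ 𝒮₂ := by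
  obtain ⟨h1a, x1, hx1, h1b⟩ := h1
  obtain ⟨h2a, x2, hx2, h2b⟩ := h2
  -- every member of `𝒮₁` contains a member of `𝒮₂` and vice versa
  have key : ∀ (𝒯₁ 𝒯₂ : Finset (Finset Δ)) (u v : X), Mn S n (S.f u) = 𝒯₁ →
      Mn S n (S.f v) = 𝒯₂ → S.f u ∈ Vb S 𝒯₂ → ∀ s ∈ 𝒯₁, ∃ s' ∈ 𝒯₂, s' ⊆ s := by
    intro 𝒯₁ 𝒯₂ u v hu hv huv s hs
    rw [← hu, mem_Mn] at hs
    obtain ⟨⟨x, hx, rfl⟩, _⟩ := hs
    obtain ⟨s', hs', hsx⟩ := huv x hx
    refine ⟨s', hs', fun δ hδ => ?_⟩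
    rw [← hv, mem_Mn] at hs'
    obtain ⟨⟨x', _, rfl⟩, _⟩ := hs'
    exact (mem_trunc S n x δ).2 ⟨((mem_trunc S n x' δ).1 hδ).1, hsx δ hδ⟩
  intro s hs
  obtain ⟨s', hs', hss'⟩ := key 𝒮₁ 𝒮₂ x1 x2 h1b h2b (h2a x1 hx1) s hs
  obtain ⟨s'', hs'', hss''⟩ := key 𝒮₂ 𝒮₁ x2 x1 h2b h1b (h1a x2 hx2) s' hs'
  have h3 : s'' = s := by
    rw [← h1b, mem_Mn] at hs hs''
    obtain ⟨⟨x', hx', rfl⟩, _⟩ := hs''
    exact hs.2 x' hx' (hss''.trans hss')
  have h4 : s' = s := le_antisymm hss' (by rw [← h3]; exact hss'')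
  rw [← h4]; exact hs'

lemma Dec_unique {S : Setup X Y Δ} {m : ℕ} {t : Finset Δ} {n : ℕ} {𝒮₁ 𝒮₂ : Finset (Finset Δ)}
    (h1 : Dec S m t n 𝒮₁) (h2 : Dec S m t n 𝒮₂) : 𝒮₁ = 𝒮₂ :=
  (Dec_sub h1 h2).antisymm (Dec_sub h2 h1)

/-- the point-finite open expansions -/
def VV (S : Setup X Y Δ) (n n' : ℕ) (𝒮 : Finset (Finset Δ)) : Set Y :=
  {y | ∀ x, S.f x = y → ∃ m ≤ n', ∃ t : Finset Δ, (∀ δ ∈ t, S.b x δ = true) ∧ Dec S m t n 𝒮}

lemma isOpen_VV (S : Setup X Y Δ) (n n' : ℕ) (𝒮 : Finset (Finset Δ)) : IsOpen (VV S n n' 𝒮) := by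
  have h : IsOpen (⋃ (m : ℕ) (_ : m ≤ n') (t : Finset Δ) (_ : Dec S m t n 𝒮),
      {x | ∀ δ ∈ t, S.b x δ = true}) :=
    isOpen_iUnion fun m => isOpen_iUnion fun _ => isOpen_iUnion fun t => isOpen_iUnion fun _ =>
      isOpen_up S t
  have e : VV S n n' 𝒮 = {y | ∀ x, S.f x = y → x ∈ ⋃ (m : ℕ) (_ : m ≤ n') (t : Finset Δ)
      (_ : Dec S m t n 𝒮), {x | ∀ δ ∈ t, S.b x δ = true}} := by
    ext y
    simp only [VV, mem_ofPred_eq, mem_iUnion, exists_prop]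
    constructor
    · intro h x hx
      obtain ⟨m, hm, t, h1, h2⟩ := h x hx
      exact ⟨m, hm, t, h2, h1⟩
    · intro h x hx
      obtain ⟨m, hm, t, h1, h2⟩ := h x hx
      exact ⟨m, hm, t, h2, h1⟩
  rw [e]
  exact isOpen_dual S h

lemma VV_finite (S : Setup X Y Δ) (n n' : ℕ) (y : Y) : {𝒮 | y ∈ VV S n n' 𝒮}.Finite := by
  classical
  obtain ⟨x, hx⟩ := S.surj y
  have h1 : (⋃ m ∈ Iic n', ⋃ t ∈ {t : Finset Δ | t ⊆ trunc S n' x}, {𝒮 | Dec S m t n 𝒮}).Finite := by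
    refine (finite_Iic n').biUnion fun m _ => Set.Finite.biUnion ?_ fun t _ =>
      Set.Subsingleton.finite fun 𝒮₁ h1 𝒮₂ h2 => Dec_unique h1 h2
    refine ((trunc S n' x).powerset.finite_toSet).subset fun t ht => ?_
    simpa using ht
  refine h1.subset fun 𝒮 h𝒮 => ?_
  obtain ⟨m, hm, t, ht, hd⟩ := h𝒮 x hx
  refine mem_biUnion (x := m) hm (mem_biUnion (x := t) ?_ hd)
  obtain ⟨_, x', hx', _⟩ := hd
  intro δ hδ
  rw [← hx'] at hδ
  exact (mem_trunc S n' x δ).2 ⟨((mem_trunc S m x' δ).1 hδ).1.trans hm, ht δ (by rwa [← hx'])⟩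

lemma mem_VV (S : Setup X Y Δ) (n : ℕ) (y : Y) : ∃ n', y ∈ VV S n n' (Mn S n y) := by
  obtain ⟨n', hn'⟩ := EE_conv S ((isOpen_Vb S (Mn S n y)).mem_nhds (mem_Vb_Mn S n y))
  refine ⟨n', fun x hx => ⟨n', le_rfl, trunc S n' x, ?_, ?_, x, rfl, by rw [hx]⟩⟩
  · exact fun δ hδ => ((mem_trunc S n' x δ).1 hδ).2
  · intro w hw
    exact hn' n' le_rfl x hx w hw

/-! ### a point of the fibre all of whose truncations are minimal -/

def LL (S : Setup X Y Δ) (y : Y) : ℕ → Set X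
  | 0 => S.f ⁻¹' {y}
  | n + 1 => {x ∈ LL S y n | ∀ x' ∈ LL S y n, (trunc S n x).card ≤ (trunc S n x').card}

lemma LL_nonempty (S : Setup X Y Δ) (y : Y) (n : ℕ) : (LL S y n).Nonempty := by
  induction n with
  | zero => obtain ⟨x, hx⟩ := S.surj y; exact ⟨x, hx⟩
  | succ n ih =>
    obtain ⟨x, hx, hmin⟩ := exists_min_card S (n := n) ih
    exact ⟨x, hx, hmin⟩
where
  exists_min_card (S : Setup X Y Δ) {A : Set X} {n : ℕ} (hA : A.Nonempty) :
      ∃ x ∈ A, ∀ x' ∈ A, (trunc S n x).card ≤ (trunc S n x').card := by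
    obtain ⟨x, hx⟩ := WellFounded.has_min (measure fun x : X => (trunc S n x).card).wf A hA
    exact ⟨x, hx.1, fun x' hx' => not_lt.1 (hx.2 x' hx')⟩

lemma isClosed_card_le (S : Setup X Y Δ) (n c : ℕ) :
    IsClosed {x | (trunc S n x).card ≤ c} := by
  rw [← isOpen_compl_iff, isOpen_iff_mem_nhds]
  intro x hx
  refine Filter.mem_of_superset ((isOpen_up S (trunc S n x)).mem_nhds
    fun δ hδ => ((mem_trunc S n x δ).1 hδ).2) ?_
  intro w hw hcon
  apply hx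
  have hsub : trunc S n x ⊆ trunc S n w := by
    intro δ hδ
    exact (mem_trunc S n w δ).2 ⟨((mem_trunc S n x δ).1 hδ).1, hw δ hδ⟩
  exact (Finset.card_le_card hsub).trans hcon

lemma LL_closed [T1Space Y] (S : Setup X Y Δ) (y : Y) (n : ℕ) : IsClosed (LL S y n) := by
  induction n with
  | zero => exact isClosed_singleton.preimage S.cont
  | succ n ih =>
    obtain ⟨x0, hx0, hmin⟩ := LL_nonempty.exists_min_card S (n := n) (LL_nonempty S y n)
    have : LL S y (n + 1) = LL S y n ∩ {x | (trunc S n x).card ≤ (trunc S n x0).card} := by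
      ext x
      constructor
      · rintro ⟨h1, h2⟩
        exact ⟨h1, h2 x0 hx0⟩
      · rintro ⟨h1, h2⟩
        exact ⟨h1, fun x' hx' => le_trans h2 (hmin x' hx')⟩
    rw [this]
    exact ih.inter (isClosed_card_le S n _)

lemma exists_lexmin [T1Space Y] (S : Setup X Y Δ) (y : Y) :
    ∃ z, S.f z = y ∧ ∀ n, trunc S n z ∈ Mn S n y := by
  have hanti : ∀ n, LL S y (n + 1) ⊆ LL S y n := fun n x hx => hx.1
  obtain ⟨z, hz⟩ := IsCompact.nonempty_iInter_of_sequence_nonempty_isCompact_isClosed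
    (LL S y) hanti (LL_nonempty S y) (S.cpt y) (LL_closed S y)
  rw [mem_iInter] at hz
  have hzy : S.f z = y := hz 0
  refine ⟨z, hzy, fun n => (mem_Mn S n y _).2 ⟨⟨z, hzy, rfl⟩, fun x hx hsub => ?_⟩⟩
  have key : ∀ k ≤ n, x ∈ LL S y k := by
    intro k hk
    induction k with
    | zero => exact hx
    | succ k ih =>
      have h1 := ih (by omega)
      refine ⟨h1, fun x' hx' => ?_⟩
      have h2 : trunc S k x ⊆ trunc S k z := trunc_sub_of_le S (by omega) hsub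
      exact (Finset.card_le_card h2).trans ((hz (k + 1)).2 x' hx')
  have h3 : (trunc S n z).card ≤ (trunc S n x).card := (hz (n + 1)).2 x (key n le_rfl)
  exact Finset.eq_of_subset_of_card_le hsub h3

end Pool.Agent.Helper53.MR
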