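import Pool.Agent.Helper53.MR.Labels

set_option autoImplicit false
open Filter Topology Set

namespace Pool.Agent.Helper53.MR

variable {X Y Δ : Type} [TopologicalSpace X] [TopologicalSpace Y]

/-- pieces `Z` such that between the trace on the image of `Z` of an open set and the open set
there is an `F_σ`. -/
def PieceA (S : Setup X Y Δ) (Z : Set X) : Prop :=
  ∀ V : Set Y, IsOpen V → ∃ F : ℕ → Set Y, (∀ i, IsClosed (F i)) ∧ (∀ i, F i ⊆ V) ∧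
    V ∩ S.f '' Z ⊆ ⋃ i, F i

/-- pieces `Z` on which `f` is locally constant. -/
def PieceB (S : Setup X Y Δ) (Z : Set X) : Prop :=
  ∀ z ∈ Z, ∃ W ∈ 𝓝 z, ∀ w ∈ W ∩ Z, S.f w = S.f z

lemma exists_bump [NormalSpace Y] (C V : Set Y) :
    ∃ h : Y → ℝ, Continuous h ∧ (∀ y, 0 ≤ h y) ∧ (∀ y, h y ≤ 1) ∧
      (∀ y, h y ≠ 0 → y ∈ V) ∧ (IsClosed C → IsOpen V → C ⊆ V → ∀ y ∈ C, h y = 1) := by
  by_cases hc : IsClosed C ∧ IsOpen V ∧ C ⊆ V
  · obtain ⟨h1, h2, h3⟩ := hc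
    obtain ⟨g, hg0, hg1, hg⟩ := exists_continuous_zero_one_of_isClosed h2.isClosed_compl h1
      (Set.disjoint_left.2 fun y hy hy' => hy (h3 hy'))
    refine ⟨g, g.continuous, fun y => (hg y).1, fun y => (hg y).2, fun y hy => ?_,
      fun _ _ _ y hy => hg1 hy⟩
    by_contra hyV
    exact hy (hg0 hyV)
  · refine ⟨fun _ => 0, continuous_const, fun _ => le_rfl, fun _ => zero_le_one,
      fun y hy => absurd rfl hy, fun h1 h2 h3 => absurd ⟨h1, h2, h3⟩ hc⟩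

noncomputable def bump [NormalSpace Y] (C V : Set Y) : Y → ℝ := (exists_bump C V).choose

lemma bump_cont [NormalSpace Y] (C V : Set Y) : Continuous (bump C V) :=
  (exists_bump C V).choose_spec.1

lemma bump_nonneg [NormalSpace Y] (C V : Set Y) (y : Y) : 0 ≤ bump C V y :=
  (exists_bump C V).choose_spec.2.1 y

lemma bump_le [NormalSpace Y] (C V : Set Y) (y : Y) : bump C V y ≤ 1 :=
  (exists_bump C V).choose_spec.2.2.1 y

lemma bump_ne [NormalSpace Y] (C V : Set Y) {y : Y} (h : bump C V y ≠ 0) : y ∈ V :=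
  (exists_bump C V).choose_spec.2.2.2.1 y h

lemma bump_one [NormalSpace Y] {C V : Set Y} (h1 : IsClosed C) (h2 : IsOpen V) (h3 : C ⊆ V)
    {y : Y} (h : y ∈ C) : bump C V y = 1 :=
  (exists_bump C V).choose_spec.2.2.2.2 h1 h2 h3 y h

abbrev Tup := ℕ × ℕ × ℕ × ℕ × Bool
abbrev Lam (Δ : Type) := Tup × Finset (Finset Δ) × Finset Δ

def FB (S : Setup X Y Δ) (Z : Set X) (n : ℕ) (s : Finset Δ) : Set Y :=
  {y | (∃ x ∈ Z, trunc S n x = s ∧ S.f x = y) ∧ ∀ x ∈ Z, trunc S n x = s → S.f x = y}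

lemma FB_sub (S : Setup X Y Δ) (Z : Set X) (n : ℕ) (s : Finset Δ) :
    (FB S Z n s).Subsingleton := by
  rintro y ⟨⟨x, hx, hs, rfl⟩, _⟩ y' ⟨_, h'⟩
  exact h' x hx hs

open Classical in
noncomputable def CC (S : Setup X Y Δ) (Z : ℕ → Set X) : Lam Δ → Set Y
  | ((n, n', j, i, true), 𝒮, _) =>
      if h : PieceA S (Z j) then (h (VV S n n' 𝒮) (isOpen_VV S n n' 𝒮)).choose i else ∅
  | ((n, n', j, _, false), 𝒮, s) => FB S (Z j) n s ∩ VV S n n' 𝒮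

def FF (S : Setup X Y Δ) (Z : ℕ → Set X) : Lam Δ → Set Y
  | ((n, _, _, _, true), _, s) => EE S n s
  | ((n, _, j, _, false), _, s) => FB S (Z j) n s

open Classical in
noncomputable def HH [NormalSpace Y] (S : Setup X Y Δ) (Z : ℕ → Set X) : Lam Δ → Y → ℝ :=
  fun a => if a.2.2 ∈ a.2.1 then bump (CC S Z a) (VV S a.1.1 a.1.2.1 a.2.1) else fun _ => 0

lemma HH_ne [NormalSpace Y] (S : Setup X Y Δ) (Z : ℕ → Set X) (a : Lam Δ) (y : Y)
    (h : HH S Z a y ≠ 0) : a.2.2 ∈ a.2.1 ∧ y ∈ VV S a.1.1 a.1.2.1 a.2.1 := by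
  unfold HH at h
  split_ifs at h with h1
  · exact ⟨h1, bump_ne _ _ h⟩
  · exact absurd rfl h

lemma CC_closed [T1Space Y] (S : Setup X Y Δ) (Z : ℕ → Set X) (a : Lam Δ) :
    IsClosed (CC S Z a) := by
  obtain ⟨⟨n, n', j, i, v⟩, 𝒮, s⟩ := a
  cases v
  · exact ((FB_sub S (Z j) n s).anti inter_subset_left).finite.isClosed
  · simp only [CC]
    split_ifs with h
    · exact (h (VV S n n' 𝒮) (isOpen_VV S n n' 𝒮)).choose_spec.1 i
    · exact isClosed_empty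

lemma CC_sub (S : Setup X Y Δ) (Z : ℕ → Set X) (a : Lam Δ) :
    CC S Z a ⊆ VV S a.1.1 a.1.2.1 a.2.1 := by
  obtain ⟨⟨n, n', j, i, v⟩, 𝒮, s⟩ := a
  cases v
  · exact inter_subset_right
  · simp only [CC]
    split_ifs with h
    · exact (h (VV S n n' 𝒮) (isOpen_VV S n n' 𝒮)).choose_spec.2.1 i
    · exact empty_subset _

noncomputable def labs [NormalSpace Y] [T1Space Y] (S : Setup X Y Δ) (Z : ℕ → Set X) :
    Lab Y (Lam Δ) where
  F := FF S Z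
  Fc := by
    rintro ⟨⟨n, n', j, i, v⟩, 𝒮, s⟩
    cases v
    · exact (FB_sub S (Z j) n s).finite.isClosed
    · exact isClosed_EE S n s
  h := HH S Z
  hc := by
    intro a
    unfold HH
    split_ifs
    · exact bump_cont _ _
    · exact continuous_const
  h0 := by
    intro a y
    unfold HH
    split_ifs
    · exact bump_nonneg _ _ _
    · exact le_rfl
  h1 := by
    intro a y
    unfold HH
    split_ifs
    · exact bump_le _ _ _
    · exact zero_le_one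
  c := fun a => Encodable.encode a.1
  cf := by
    intro y k
    have hfin : (⋃ t ∈ {t : Tup | Encodable.encode t = k}, ⋃ 𝒮 ∈ {𝒮 | y ∈ VV S t.1 t.2.1 𝒮},
        (fun s => ((t, 𝒮, s) : Lam Δ)) '' (𝒮 : Set (Finset Δ))).Finite := by
      refine Set.Finite.biUnion (Set.Subsingleton.finite fun t ht t' ht' => ?_) fun t _ =>
        (VV_finite S t.1 t.2.1 y).biUnion fun 𝒮 _ => 𝒮.finite_toSet.image _
      exact Encodable.encode_injective (Eq.trans ht (Eq.symm ht'))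
    refine hfin.subset ?_
    rintro ⟨t, 𝒮, s⟩ ⟨h1, h2⟩
    obtain ⟨h3, h4⟩ := HH_ne S Z _ y h2
    exact mem_biUnion (x := t) h1 (mem_biUnion (x := 𝒮) h4 ⟨s, h3, rfl⟩)

lemma labs_conv [NormalSpace Y] [T1Space Y] (S : Setup X Y Δ) (Z : ℕ → Set X)
    (hZ : ∀ j, PieceA S (Z j) ∨ PieceB S (Z j)) {y : Y} (hy : S.f ⁻¹' {y} ⊆ ⋃ j, Z j)
    {O : Set Y} (hO : O ∈ 𝓝 y) :
    ∃ a, y ∈ (labs S Z).F a ∧ (labs S Z).F a ⊆ O ∧ (labs S Z).h a y ≠ 0 := by
  obtain ⟨z, hzy, hz⟩ := exists_lexmin S y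
  obtain ⟨j, hzj⟩ := mem_iUnion.1 (hy hzy)
  have hone : ∀ (a : Lam Δ), a.2.2 ∈ a.2.1 → y ∈ CC S Z a → HH S Z a y ≠ 0 := by
    intro a h1 h2
    unfold HH
    rw [if_pos h1, bump_one (CC_closed S Z a) (isOpen_VV S _ _ _) (CC_sub S Z a) h2]
    exact one_ne_zero
  rcases hZ j with hA | hB
  · obtain ⟨n, hn⟩ := EE_conv S hO
    obtain ⟨n', hn'⟩ := mem_VV S n y
    have hspec := (hA (VV S n n' (Mn S n y)) (isOpen_VV S n n' (Mn S n y))).choose_spec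
    obtain ⟨i, hi⟩ := mem_iUnion.1 (hspec.2.2 ⟨hn', z, hzj, hzy⟩)
    refine ⟨((n, n', j, i, true), Mn S n y, trunc S n z), ⟨z, rfl, hzy⟩, ?_, hone _ (hz n) ?_⟩
    · rintro _ ⟨w, hw, rfl⟩
      exact hn n le_rfl z hzy w hw
    · simp only [CC]
      rw [dif_pos hA]
      exact hi
  · obtain ⟨W, hW, hWZ⟩ := hB z hzj
    obtain ⟨D, hD⟩ := trunc_conv S hW
    set n := D.sup S.lev with hn
    obtain ⟨n', hn'⟩ := mem_VV S n y
    have hyF : y ∈ FB S (Z j) n (trunc S n z) := by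
      refine ⟨⟨z, hzj, rfl, hzy⟩, fun x hx hxs => ?_⟩
      rw [← hzy]
      refine hWZ x ⟨hD x fun δ hδ => eq_of_trunc_eq S hxs (Finset.le_sup hδ), hx⟩
    refine ⟨((n, n', j, 0, false), Mn S n y, trunc S n z), hyF, ?_, hone _ (hz n) ⟨hyF, hn'⟩⟩
    intro y' hy'
    have : y' = y := FB_sub S (Z j) n _ hy' hyF
    rw [this]
    exact mem_of_mem_nhds hO

theorem main_pieces [NormalSpace Y] [T1Space Y] (S : Setup X Y Δ) (Z : ℕ → Set X)
    (hZ : ∀ j, PieceA S (Z j) ∨ PieceB S (Z j)) :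
    ∃ (Γ' : Type) (g : Y → (Γ' → ℝ)), Continuous g ∧ (∀ y, Tendsto (g y) cofinite (𝓝 0)) ∧
      ∀ y, S.f ⁻¹' {y} ⊆ ⋃ j, Z j → 𝓝 y = comap g (𝓝 (g y)) := by
  obtain ⟨Γ', g, h1, h2, h3⟩ := main S (labs S Z)
  exact ⟨Γ', g, h1, h2, fun y hy => h3 y fun O hO => labs_conv S Z hZ hy hO⟩

end Pool.Agent.Helper53.MR
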