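import Pool.Agent.Helper53.MR.Pieces

set_option autoImplicit false
set_option linter.unusedSectionVars false
open Filter Topology Set

namespace Pool.Agent.Helper53.MR

variable {X Y Γ : Type} [TopologicalSpace X] [TopologicalSpace Y]

/-- the bit `v` records on which side of the rational `q ≠ 0` the number `r` lies. -/
def Cnd (r : ℝ) (q : ℚ) (v : Bool) : Prop :=
  (v = true → (0 < q ∧ (q : ℝ) ≤ r) ∨ (q < 0 ∧ r ≤ q)) ∧
    (v = false → (0 < q → r ≤ q) ∧ (q < 0 → (q : ℝ) ≤ r))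

lemma isClosed_Cnd (q : ℚ) (v : Bool) : IsClosed {r : ℝ | Cnd r q v} := by
  cases v
  · have : {r : ℝ | Cnd r q false} =
        {r : ℝ | 0 < q → r ≤ (q : ℝ)} ∩ {r : ℝ | q < 0 → (q : ℝ) ≤ r} := by
      ext r; simp [Cnd]
    rw [this]
    refine IsClosed.inter ?_ ?_
    · by_cases h : 0 < q
      · have h' : {r : ℝ | 0 < q → r ≤ (q : ℝ)} = Iic (q : ℝ) := by ext r; simp [h]
        rw [h']; exact isClosed_Iic
      · have h' : {r : ℝ | 0 < q → r ≤ (q : ℝ)} = univ := by ext r; simp [h]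
        rw [h']; exact isClosed_univ
    · by_cases h : q < 0
      · have h' : {r : ℝ | q < 0 → (q : ℝ) ≤ r} = Ici (q : ℝ) := by ext r; simp [h]
        rw [h']; exact isClosed_Ici
      · have h' : {r : ℝ | q < 0 → (q : ℝ) ≤ r} = univ := by ext r; simp [h]
        rw [h']; exact isClosed_univ
  · have : {r : ℝ | Cnd r q true} =
        {r : ℝ | 0 < q ∧ (q : ℝ) ≤ r} ∪ {r : ℝ | q < 0 ∧ r ≤ (q : ℝ)} := by
      ext r; simp [Cnd]
    rw [this]
    refine IsClosed.union ?_ ?_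
    · by_cases h : 0 < q
      · have h' : {r : ℝ | 0 < q ∧ (q : ℝ) ≤ r} = Ici (q : ℝ) := by ext r; simp [h]
        rw [h']; exact isClosed_Ici
      · have h' : {r : ℝ | 0 < q ∧ (q : ℝ) ≤ r} = ∅ := by ext r; simp [h]
        rw [h']; exact isClosed_empty
    · by_cases h : q < 0
      · have h' : {r : ℝ | q < 0 ∧ r ≤ (q : ℝ)} = Iic (q : ℝ) := by ext r; simp [h]
        rw [h']; exact isClosed_Iic
      · have h' : {r : ℝ | q < 0 ∧ r ≤ (q : ℝ)} = ∅ := by ext r; simp [h]
        rw [h']; exact isClosed_empty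

/-- the zero-dimensional cover of `X`. -/
abbrev Cv (e : X → (Γ → ℝ)) : Type :=
  {p : X × (Γ × ℚ → Bool) // ∀ γ q, Cnd (e p.1 γ) q (p.2 (γ, q))}

lemma isClosed_Cv {e : X → (Γ → ℝ)} (he : Continuous e) :
    IsClosed {p : X × (Γ × ℚ → Bool) | ∀ γ q, Cnd (e p.1 γ) q (p.2 (γ, q))} := by
  have : {p : X × (Γ × ℚ → Bool) | ∀ γ q, Cnd (e p.1 γ) q (p.2 (γ, q))} =
      ⋂ γ, ⋂ q, ({p | p.2 (γ, q) = true} ∩ {p | Cnd (e p.1 γ) q true}) ∪
        ({p | p.2 (γ, q) = false} ∩ {p | Cnd (e p.1 γ) q false}) := by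
    ext p
    simp only [mem_ofPred_eq, mem_iInter, mem_union, mem_inter_iff]
    refine forall_congr' fun γ => forall_congr' fun q => ?_
    cases h : p.2 (γ, q) <;> simp
  rw [this]
  refine isClosed_iInter fun γ => isClosed_iInter fun q => IsClosed.union ?_ ?_
  · refine IsClosed.inter ?_ ?_
    · exact (isClopen_coord (γ, q) true).isClosed.preimage continuous_snd
    · exact (isClosed_Cnd q true).preimage ((continuous_apply γ).comp (he.comp continuous_fst))
  · refine IsClosed.inter ?_ ?_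
    · exact (isClopen_coord (γ, q) false).isClosed.preimage continuous_snd
    · exact (isClosed_Cnd q false).preimage ((continuous_apply γ).comp (he.comp continuous_fst))

def pr (e : X → (Γ → ℝ)) : Cv e → X := fun p => p.1.1

lemma pr_proper {e : X → (Γ → ℝ)} (he : Continuous e) : IsProperMap (pr e) := by
  have h1 : IsProperMap (Subtype.val : Cv e → X × (Γ × ℚ → Bool)) :=
    (isClosed_Cv he).isClosedEmbedding_subtypeVal.isProperMap
  exact (isProperMap_fst_of_compactSpace (X := X) (Y := Γ × ℚ → Bool)).comp h1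

lemma pr_surj (e : X → (Γ → ℝ)) : Function.Surjective (pr e) := by
  classical
  intro x
  refine ⟨⟨(x, fun d => decide ((0 < d.2 ∧ (d.2 : ℝ) ≤ e x d.1) ∨ (d.2 < 0 ∧ e x d.1 ≤ d.2))),
    fun γ q => ⟨fun h => ?_, fun h => ?_⟩⟩, rfl⟩
  · simpa using h
  · have h' : ¬ ((0 < q ∧ (q : ℝ) ≤ e x γ) ∨ (q < 0 ∧ e x γ ≤ q)) := by simpa using h
    push Not at h'
    exact ⟨fun h0 => (h'.1 h0).le, fun h0 => (h'.2 h0).le⟩

def bits (e : X → (Γ → ℝ)) : Cv e → (Γ × ℚ → Bool) := fun p => p.1.2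

lemma bits_tendsto (e : X → (Γ → ℝ)) (p : Cv e) (γ : Γ) :
    Tendsto (fun p' : Cv e => e (pr e p') γ) (comap (bits e) (𝓝 (bits e p)))
      (𝓝 (e (pr e p) γ)) := by
  have hev : ∀ q : ℚ, ∀ᶠ p' in comap (bits e) (𝓝 (bits e p)), bits e p' (γ, q) = bits e p (γ, q) := by
    intro q
    have : {z : Γ × ℚ → Bool | z (γ, q) = bits e p (γ, q)} ∈ 𝓝 (bits e p) :=
      (isClopen_coord (γ, q) _).isOpen.mem_nhds rfl
    exact Filter.preimage_mem_comap this
  have hp := p.2
  rw [tendsto_order]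
  constructor
  · intro a ha
    obtain ⟨q0, h1, h2⟩ := exists_rat_btwn ha
    obtain ⟨q, h3, h4, h5⟩ : ∃ q : ℚ, a < q ∧ (q : ℝ) < e (pr e p) γ ∧ q ≠ 0 := by
      by_cases h0 : q0 = 0
      · obtain ⟨q, h3, h4⟩ := exists_rat_btwn h2
        refine ⟨q, h1.trans h3, h4, ?_⟩
        rintro rfl
        rw [h0] at h3
        exact lt_irrefl _ h3
      · exact ⟨q0, h1, h2, h0⟩
    filter_upwards [hev q] with p' hp'
    refine h3.trans_le ?_
    have hc := hp γ q
    have hc' := p'.2 γ q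
    change Cnd (e (pr e p) γ) q (bits e p (γ, q)) at hc
    change Cnd (e (pr e p') γ) q (bits e p' (γ, q)) at hc'
    rw [hp'] at hc'
    cases hv : bits e p (γ, q)
    · rw [hv] at hc hc'
      rcases lt_or_gt_of_ne h5 with h6 | h6
      · exact (hc'.2 rfl).2 h6
      · exact absurd ((hc.2 rfl).1 h6) (not_le.2 h4)
    · rw [hv] at hc hc'
      rcases hc'.1 rfl with h6 | h6
      · exact h6.2
      · rcases hc.1 rfl with h7 | h7
        · exact absurd h7.1 (not_lt.2 h6.1.le)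
        · exact absurd h7.2 (not_le.2 h4)
  · intro a ha
    obtain ⟨q0, h1, h2⟩ := exists_rat_btwn ha
    obtain ⟨q, h3, h4, h5⟩ : ∃ q : ℚ, e (pr e p) γ < q ∧ (q : ℝ) < a ∧ q ≠ 0 := by
      by_cases h0 : q0 = 0
      · obtain ⟨q, h3, h4⟩ := exists_rat_btwn h1
        refine ⟨q, h3, h4.trans h2, ?_⟩
        rintro rfl
        rw [h0] at h4
        exact lt_irrefl _ h4
      · exact ⟨q0, h1, h2, h0⟩
    filter_upwards [hev q] with p' hp'
    refine lt_of_le_of_lt ?_ h4
    have hc := hp γ q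
    have hc' := p'.2 γ q
    change Cnd (e (pr e p) γ) q (bits e p (γ, q)) at hc
    change Cnd (e (pr e p') γ) q (bits e p' (γ, q)) at hc'
    rw [hp'] at hc'
    cases hv : bits e p (γ, q)
    · rw [hv] at hc hc'
      rcases lt_or_gt_of_ne h5 with h6 | h6
      · exact absurd ((hc.2 rfl).2 h6) (not_le.2 h3)
      · exact (hc'.2 rfl).1 h6
    · rw [hv] at hc hc'
      rcases hc'.1 rfl with h6 | h6
      · rcases hc.1 rfl with h7 | h7
        · exact absurd h7.2 (not_le.2 h3)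
        · exact absurd h7.1 (not_lt.2 h6.1.le)
      · exact h6.2

lemma bits_inducing {e : X → (Γ → ℝ)} (he : IsInducing e) : IsInducing (bits e) := by
  rw [isInducing_iff_nhds]
  intro p
  have hc : Continuous (bits e) := continuous_snd.comp continuous_subtype_val
  refine le_antisymm (hc.tendsto p).le_comap ?_
  rw [nhds_subtype_eq_comap, nhds_prod_eq, ← tendsto_iff_comap]
  refine Tendsto.prodMk ?_ ?_
  · change Tendsto (pr e) (comap (bits e) (𝓝 (bits e p))) (𝓝 (pr e p))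
    rw [he.nhds_eq_comap, tendsto_comap_iff, tendsto_pi_nhds]
    exact fun γ => bits_tendsto e p γ
  · exact tendsto_comap

lemma bits_fin {e : X → (Γ → ℝ)} (h0 : ∀ x, Tendsto (e x) cofinite (𝓝 0)) (p : Cv e) (n : ℕ) :
    {d : Γ × ℚ | Encodable.encode d.2 ≤ n ∧ bits e p d = true}.Finite := by
  have hq : {q : ℚ | Encodable.encode q ≤ n}.Finite :=
    (finite_Iic n).preimage Encodable.encode_injective.injOn
  have hγ : ∀ q : ℚ, {γ | bits e p (γ, q) = true}.Finite := by
    intro q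
    by_cases hq0 : q = 0
    · have : {γ | bits e p (γ, q) = true} = ∅ := by
        ext γ
        simp only [mem_ofPred_eq, mem_empty_iff_false, iff_false]
        intro h
        have hc := (p.2 γ q).1 h
        rw [hq0] at hc
        simp at hc
      rw [this]; exact finite_empty
    · have hpos : (0 : ℝ) < |(q : ℝ)| := by
        rw [abs_pos]; exact_mod_cast hq0
      have := (Metric.tendsto_nhds.1 (h0 (pr e p))) |(q : ℝ)| hpos
      rw [Filter.eventually_cofinite] at this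
      refine this.subset ?_
      intro γ h
      have hc := (p.2 γ q).1 h
      change ¬ dist (e (pr e p) γ) 0 < |(q : ℝ)|
      rw [dist_zero_right, Real.norm_eq_abs, not_lt]
      rcases hc with ⟨h1, h2⟩ | ⟨h1, h2⟩
      · have h1' : (0 : ℝ) < q := by exact_mod_cast h1
        rw [abs_of_pos h1']
        exact h2.trans (le_abs_self _)
      · have h1' : (q : ℝ) < 0 := by exact_mod_cast h1
        rw [abs_of_neg h1']
        exact (neg_le_neg h2).trans (neg_le_abs _)
  refine (hq.biUnion fun q _ => (hγ q).image fun γ => (γ, q)).subset ?_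
  rintro ⟨γ, q⟩ ⟨h1, h2⟩
  exact mem_biUnion (x := q) h1 ⟨γ, h2, rfl⟩

/-- the setup coming from a perfect map on a subspace of `c_0`. -/
def mkSetup (e : X → (Γ → ℝ)) (he : IsInducing e) (h0 : ∀ x, Tendsto (e x) cofinite (𝓝 0))
    (f : X → Y) (hf : IsProperMap f) (hs : Function.Surjective f) : Setup (Cv e) Y (Γ × ℚ) where
  b := bits e
  lev := fun d => Encodable.encode d.2
  f := fun p => f (pr e p)
  ind := bits_inducing he
  fin := fun p n => bits_fin h0 p n
  cont := hf.continuous.comp (pr_proper he.continuous).continuous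
  closed := (hf.comp (pr_proper he.continuous)).isClosedMap
  cpt := fun _ => (hf.comp (pr_proper he.continuous)).isCompact_preimage isCompact_singleton
  surj := hs.comp (pr_surj e)

lemma normal_of_closed [NormalSpace X] {f : X → Y} (hc : Continuous f) (hf : IsClosedMap f)
    (hs : Function.Surjective f) : NormalSpace Y := by
  refine ⟨fun A B hA hB hAB => ?_⟩
  obtain ⟨U, V, hU, hV, hAU, hBV, hUV⟩ := normal_separation (hA.preimage hc) (hB.preimage hc)
    (hAB.preimage f)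
  refine ⟨(f '' Uᶜ)ᶜ, (f '' Vᶜ)ᶜ, (hf _ hU.isClosed_compl).isOpen_compl,
    (hf _ hV.isClosed_compl).isOpen_compl, ?_, ?_, ?_⟩
  · rintro y hy ⟨x, hx, rfl⟩
    exact hx (hAU hy)
  · rintro y hy ⟨x, hx, rfl⟩
    exact hx (hBV hy)
  · rw [Set.disjoint_left]
    intro y hy1 hy2
    obtain ⟨x, rfl⟩ := hs y
    have h1 : x ∈ U := by
      by_contra h; exact hy1 ⟨x, h, rfl⟩
    have h2 : x ∈ V := by
      by_contra h; exact hy2 ⟨x, h, rfl⟩
    exact Set.disjoint_left.1 hUV h1 h2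

lemma t1_of_closed [T1Space X] {f : X → Y} (hf : IsClosedMap f)
    (hs : Function.Surjective f) : T1Space Y := by
  refine ⟨fun y => ?_⟩
  obtain ⟨x, rfl⟩ := hs y
  have := hf {x} isClosed_singleton
  rwa [image_singleton] at this

theorem pieces_X [NormalSpace X] (e : X → (Γ → ℝ)) (he : IsEmbedding e)
    (h0 : ∀ x, Tendsto (e x) cofinite (𝓝 0))
    (f : X → Y) (hf : IsProperMap f) (hs : Function.Surjective f) (Z : ℕ → Set X)
    (hZ : ∀ j, (∀ V : Set X, IsOpen V → ∃ F : ℕ → Set X, (∀ i, IsClosed (F i)) ∧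
        (∀ i, F i ⊆ V) ∧ V ∩ Z j ⊆ ⋃ i, F i) ∨
      (∀ z ∈ Z j, ∃ W ∈ 𝓝 z, ∀ w ∈ W ∩ Z j, f w = f z)) :
    ∃ (Γ' : Type) (g : Y → (Γ' → ℝ)), Continuous g ∧ (∀ y, Tendsto (g y) cofinite (𝓝 0)) ∧
      (∀ y, f ⁻¹' {y} ⊆ ⋃ j, Z j → 𝓝 y = comap g (𝓝 (g y))) ∧
      ((⋃ j, Z j) = univ → IsEmbedding g) := by
  have : T2Space X := he.t2Space
  have : NormalSpace Y := normal_of_closed hf.continuous hf.isClosedMap hs
  have : T1Space Y := t1_of_closed hf.isClosedMap hs
  set S := mkSetup e he.isInducing h0 f hf hs with hS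
  obtain ⟨Γ', g, h1, h2, h3⟩ := main_pieces S (fun j => pr e ⁻¹' Z j) (by
    intro j
    rcases hZ j with h | h
    · left
      intro V hV
      obtain ⟨F, hF1, hF2, hF3⟩ := h (f ⁻¹' V) (hV.preimage hf.continuous)
      refine ⟨fun i => f '' F i, fun i => hf.isClosedMap _ (hF1 i),
        fun i => image_subset_iff.2 (hF2 i), ?_⟩
      rintro y ⟨hyV, p, hp, hpy⟩
      have hpy' : f (pr e p) = y := hpy
      obtain ⟨i, hi⟩ := mem_iUnion.1 (hF3 ⟨show f (pr e p) ∈ V by rwa [hpy'], hp⟩)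
      exact mem_iUnion.2 ⟨i, pr e p, hi, hpy'⟩
    · right
      intro p hp
      obtain ⟨W, hW, hW2⟩ := h (pr e p) hp
      exact ⟨pr e ⁻¹' W, (pr_proper he.continuous).continuous.continuousAt.preimage_mem_nhds hW,
        fun w hw => hW2 _ hw⟩)
  have key : ∀ y, f ⁻¹' {y} ⊆ ⋃ j, Z j → 𝓝 y = comap g (𝓝 (g y)) := by
    intro y hy
    refine h3 y fun p hp => ?_
    obtain ⟨j, hj⟩ := mem_iUnion.1 (hy (show pr e p ∈ f ⁻¹' {y} from hp))
    exact mem_iUnion.2 ⟨j, hj⟩
  refine ⟨Γ', g, h1, h2, key, fun hu => ?_⟩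
  have : IsInducing g := isInducing_iff_nhds.2 fun y => key y (by rw [hu]; exact subset_univ _)
  exact this.isEmbedding

end Pool.Agent.Helper53.MR
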